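import Pool.Agent.Helper14.SquareConic

/-!
# A lower bound for `M_k(D)` for the powers `k` of two

Let `F` be the field with `q = 2k` elements. In the projective plane over `F` the line at infinity,
the line `x = 0` and the lines `y = t x + t ^ 2` form a dual hyperoval: `q + 2` lines, no three of
them through one point. The types are the other `q ^ 2 - 1` lines, the hubs are the points on no
line of the dual hyperoval. The other points lie on `2 k - 1` types; for them we use a second copy
of the design, in which the types are divided into `k` subtypes.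
-/

set_option autoImplicit false
set_option linter.unusedSectionVars false

namespace Pool.Agent.Helper32.Arc

open Pool.Agent.Helper14.Square Classical

section field

variable {F : Type} [Field F] [Fintype F] [CharP F 2]

/-- `y = a ^ 2 + a` for some `a`. -/
def AS (y : F) : Prop := ∃ a : F, a ^ 2 + a = y

lemma AS.zero : AS (0 : F) := ⟨0, by simp⟩

lemma AS.self (a : F) : AS (a + a ^ 2) := ⟨a, add_comm _ _⟩

lemma AS.add {x y : F} (hx : AS x) (hy : AS y) : AS (x + y) := by
  obtain ⟨a, rfl⟩ := hx
  obtain ⟨b, rfl⟩ := hy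
  refine ⟨a + b, ?_⟩
  rw [CharTwo.add_sq]
  ring

lemma AS.add_iff {x y : F} (hx : AS x) : AS (x + y) ↔ AS y := by
  refine ⟨fun h => ?_, fun h => hx.add h⟩
  have h1 := hx.add h
  rwa [CharTwo.add_cancel_left] at h1

/-- Half of the elements are of the form `a ^ 2 + a`. -/
lemma card_AS : 2 * Fintype.card {y : F // AS y} = Fintype.card F := by
  have h1 : Fintype.card F = ∑ y : {y : F // AS y},
      (Finset.univ.filter fun a : F => a ^ 2 + a = y.1).card := by
    have h2 := Finset.card_eq_sum_card_fiberwise (s := (Finset.univ : Finset F))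
      (t := (Finset.univ : Finset {y : F // AS y}))
      (f := fun a => (⟨a ^ 2 + a, a, rfl⟩ : {y : F // AS y})) (fun _ _ => Finset.mem_coe.2 (Finset.mem_univ _))
    rw [Finset.card_univ] at h2
    rw [h2]
    refine Finset.sum_congr rfl fun y _ => ?_
    congr 1
    ext a
    simp only [Finset.mem_filter, Finset.mem_univ, true_and]
    exact Subtype.ext_iff
  rw [h1]
  have h3 : ∀ y : {y : F // AS y}, (Finset.univ.filter fun a : F => a ^ 2 + a = y.1).card = 2 := by
    rintro ⟨y, a, rfl⟩
    have h4 : (Finset.univ.filter fun b : F => b ^ 2 + b = a ^ 2 + a) = {a, a + 1} := by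
      ext b
      simp only [Finset.mem_filter, Finset.mem_univ, true_and, Finset.mem_insert,
        Finset.mem_singleton]
      constructor
      · intro h
        have h5 : (b + a) * (b + a + 1) = 0 := by
          have h6 : (b + a) * (b + a + 1) = (b ^ 2 + b) + (a ^ 2 + a) + (b * a + b * a) := by ring
          rw [h6, h, CharTwo.add_self_eq_zero, CharTwo.add_self_eq_zero, add_zero]
        rcases mul_eq_zero.1 h5 with h6 | h6
        · exact Or.inl (CharTwo.add_eq_zero.1 h6)
        · rw [add_assoc] at h6
          exact Or.inr (CharTwo.add_eq_zero.1 h6)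
      · rintro (rfl | rfl)
        · rfl
        · rw [CharTwo.add_sq, one_pow]
          have : a ^ 2 + 1 + (a + 1) = a ^ 2 + a + (1 + 1) := by ring
          rw [this, CharTwo.add_self_eq_zero, add_zero]
    rw [h4, Finset.card_pair]
    intro h
    exact one_ne_zero (left_eq_add.1 h)
  rw [Finset.sum_congr rfl fun y _ => h3 y, Finset.sum_const, smul_eq_mul, Finset.card_univ,
    mul_comm]

/-- The elements which are not of the form `a ^ 2 + a`. -/
abbrev Z (F : Type) [Field F] : Type := {z : F // ¬ AS z}

lemma card_Z : 2 * Fintype.card (Z F) = Fintype.card F := by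
  have h1 := card_AS (F := F)
  have h2 : Fintype.card (Z F) = Fintype.card F - Fintype.card {y : F // AS y} :=
    Fintype.card_subtype_compl _
  omega

lemma exists_sq (y : F) : ∃ x : F, x ^ 2 = y :=
  (Finite.injective_iff_surjective.1 (CharTwo.sq_injective (R := F))) y

/-! ### The plane -/

/-- The types: a slope and a nonzero element. -/
abbrev Ty (F : Type) [Field F] : Type := Option F × Fˣ

/-- The affine points of a line. -/
def OnPt : Ty F → F → F → Prop
  | (some m, u), x, y => y = m * x + m ^ 2 + u
  | (none, c), x, _ => x = c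

/-- The points on two lines of the dual hyperoval. -/
abbrev FP (F : Type) [Field F] : Type := {p : F × F // AS (p.2 / p.1 ^ 2)} ⊕ Option F

def Inc (l : Ty F) : FP F → Prop
  | Sum.inl p => OnPt l p.1.1 p.1.2
  | Sum.inr d => l.1 = d

/-- The equation of a line through `(x, x ^ 2 z)`. -/
lemma onPt_some {m x z : F} {u : Fˣ} (hx : x ≠ 0) :
    OnPt (some m, u) x (x ^ 2 * z) ↔ z = (m / x + (m / x) ^ 2) + u / x ^ 2 := by
  unfold OnPt
  constructor
  · intro h
    field_simp
    linear_combination h
  · intro h
    rw [h]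
    field_simp

lemma div_sq (m x u : F) : (m * x + m ^ 2 + u) / x ^ 2 = (m / x + (m / x) ^ 2) + u / x ^ 2 := by
  by_cases hx : x = 0
  · subst hx
    simp
  · field_simp

lemma sq_div_injective {u : F} (hu : u ≠ 0) : Function.Injective fun x : F => u / x ^ 2 := by
  intro x x' h
  simp only at h
  by_cases hx : x = 0
  · subst hx
    by_contra hne
    have hx' : x' ≠ 0 := fun h => hne h.symm
    rw [zero_pow two_ne_zero, div_zero, eq_comm, div_eq_zero_iff] at h
    rcases h with h | h
    · exact hu h
    · exact hx' (pow_eq_zero_iff two_ne_zero |>.1 h)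
  · by_cases hx' : x' = 0
    · subst hx'
      rw [zero_pow two_ne_zero, div_zero, div_eq_zero_iff] at h
      rcases h with h | h
      · exact absurd h hu
      · exact absurd (pow_eq_zero_iff two_ne_zero |>.1 h) hx
    · rw [div_eq_div_iff (pow_ne_zero 2 hx) (pow_ne_zero 2 hx')] at h
      exact (CharTwo.sq_inj.1 (mul_left_cancel₀ hu h)).symm

/-- Two different lines meet in a hub or in another point. -/
lemma meet {l l' : Ty F} (h : l ≠ l') :
    (∃ (x : Fˣ) (z : Z F), OnPt l x (x ^ 2 * z) ∧ OnPt l' x (x ^ 2 * z)) ∨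
      ∃ P : FP F, Inc l P ∧ Inc l' P := by
  -- an affine common point is enough
  have key : ∀ x y : F, OnPt l x y → OnPt l' x y →
      (∃ (x : Fˣ) (z : Z F), OnPt l x (x ^ 2 * z) ∧ OnPt l' x (x ^ 2 * z)) ∨
      ∃ P : FP F, Inc l P ∧ Inc l' P := by
    intro x y h1 h2
    by_cases hy : AS (y / x ^ 2)
    · exact Or.inr ⟨Sum.inl ⟨(x, y), hy⟩, h1, h2⟩
    · have hx : x ≠ 0 := by
        rintro rfl
        apply hy
        simp only [ne_eq, OfNat.ofNat_ne_zero, not_false_eq_true, zero_pow, div_zero]
        exact AS.zero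
      left
      refine ⟨Units.mk0 x hx, ⟨y / x ^ 2, hy⟩, ?_, ?_⟩
      · simp only [Units.val_mk0]
        rwa [mul_div_cancel₀ _ (pow_ne_zero 2 hx)]
      · simp only [Units.val_mk0]
        rwa [mul_div_cancel₀ _ (pow_ne_zero 2 hx)]
  obtain ⟨s, u⟩ := l
  obtain ⟨s', u'⟩ := l'
  by_cases hs : s = s'
  · subst hs
    exact Or.inr ⟨Sum.inr s, rfl, rfl⟩
  · rcases s with _ | m
    · rcases s' with _ | m'
      · exact absurd rfl hs
      · exact key u (m' * u + m' ^ 2 + u') rfl rfl
    · rcases s' with _ | m'
      · exact key u' (m * u' + m ^ 2 + u) rfl rfl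
      · have hm : m + m' ≠ 0 := fun h => hs (congrArg some (CharTwo.add_eq_zero.1 h))
        refine key ((m ^ 2 + u + (m' ^ 2 + u')) / (m + m'))
          (m * ((m ^ 2 + u + (m' ^ 2 + u')) / (m + m')) + m ^ 2 + u) rfl ?_
        show _ = _
        have h1 : (m + m') * ((m ^ 2 + u + (m' ^ 2 + u')) / (m + m')) =
            m ^ 2 + u + (m' ^ 2 + u') := mul_div_cancel₀ _ hm
        set x := (m ^ 2 + (u : F) + (m' ^ 2 + u')) / (m + m')
        have h2 : m * x + m' * x = m ^ 2 + u + (m' ^ 2 + u') := by rw [← h1]; ring
        have h3 : m * x + m ^ 2 + u + (m' * x + m' ^ 2 + u') = 0 := by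
          have : m * x + m ^ 2 + u + (m' * x + m' ^ 2 + u') =
            (m * x + m' * x) + (m ^ 2 + u + (m' ^ 2 + u')) := by ring
          rw [this, h2, CharTwo.add_self_eq_zero]
        exact CharTwo.add_eq_zero.1 h3

/-- The types through a point which is not a hub: at most `q - 1`. -/
lemma card_through (P : FP F) :
    (Finset.univ.filter fun l : Ty F => Inc l P).card ≤ Fintype.card Fˣ := by
  rcases P with ⟨⟨x, y⟩, a, ha⟩ | d
  · -- the slopes of the two lines of the dual hyperoval
    obtain ⟨s, s', hss, hs, hs'⟩ : ∃ s s' : Option F, s ≠ s' ∧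
        (∀ l : Ty F, OnPt l x y → l.1 ≠ s) ∧ (∀ l : Ty F, OnPt l x y → l.1 ≠ s') := by
      by_cases hx : x = 0
      · subst hx
        obtain ⟨r, hr⟩ := exists_sq y
        refine ⟨none, some r, by simp, ?_, ?_⟩
        · rintro ⟨_ | m, u⟩ h
          · exact absurd h.symm u.ne_zero
          · simp
        · rintro ⟨_ | m, u⟩ h
          · simp
          · intro he
            simp only [Option.some.injEq] at he
            subst he
            have h' : y = m * 0 + m ^ 2 + u := h
            rw [← hr, mul_zero, zero_add] at h'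
            exact u.ne_zero (left_eq_add.1 h')
      · have hy : y = (a ^ 2 + a) * x ^ 2 := by
          simp only at ha
          rw [ha, div_mul_cancel₀ _ (pow_ne_zero 2 hx)]
        refine ⟨some (x * a), some (x * a + x), ?_, ?_, ?_⟩
        · intro h
          simp only [Option.some.injEq] at h
          exact hx (left_eq_add.1 h)
        · rintro ⟨_ | m, u⟩ h he
          · simp at he
          · simp only [Option.some.injEq] at he
            subst he
            have h' : y = x * a * x + (x * a) ^ 2 + u := h
            rw [hy] at h'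
            apply u.ne_zero
            have h2 : (a ^ 2 + a) * x ^ 2 = x * a * x + (x * a) ^ 2 := by ring
            rw [h2] at h'
            exact left_eq_add.1 h'
        · rintro ⟨_ | m, u⟩ h he
          · simp at he
          · simp only [Option.some.injEq] at he
            subst he
            have h' : y = (x * a + x) * x + (x * a + x) ^ 2 + u := h
            rw [hy, CharTwo.add_sq] at h'
            apply u.ne_zero
            have h2 : (x * a + x) * x + ((x * a) ^ 2 + x ^ 2) =
              (a ^ 2 + a) * x ^ 2 + (x ^ 2 + x ^ 2) := by ring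
            rw [h2, CharTwo.add_self_eq_zero, add_zero] at h'
            exact left_eq_add.1 h'
    have h1 : (Finset.univ.filter fun l : Ty F => Inc l (Sum.inl ⟨(x, y), a, ha⟩)).card ≤
        ((Finset.univ : Finset (Option F)) \ {s, s'}).card := by
      refine Finset.card_le_card_of_injOn (fun l => l.1) ?_ ?_
      · intro l hl
        have hl' : OnPt l x y := (Finset.mem_filter.1 (Finset.mem_coe.1 hl)).2
        simp only [Finset.coe_sdiff, Finset.coe_univ, Set.mem_sdiff, Set.mem_univ, true_and,
          Finset.coe_insert, Finset.coe_singleton, Set.mem_insert_iff, Set.mem_singleton_iff,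
          not_or]
        exact ⟨hs l hl', hs' l hl'⟩
      · rintro ⟨m, u⟩ hl ⟨m', u'⟩ hl' he
        have h1 : OnPt (m, u) x y := (Finset.mem_filter.1 (Finset.mem_coe.1 hl)).2
        have h2 : OnPt (m', u') x y := (Finset.mem_filter.1 (Finset.mem_coe.1 hl')).2
        simp only at he
        subst he
        congr 1
        rcases m with _ | m
        · have h1' : x = u := h1
          have h2' : x = u' := h2
          exact Units.ext (h1'.symm.trans h2')
        · have h1' : y = m * x + m ^ 2 + u := h1
          have h2' : y = m * x + m ^ 2 + u' := h2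
          exact Units.ext (add_left_cancel (h1'.symm.trans h2'))
    refine h1.trans ?_
    rw [Finset.card_sdiff_of_subset (Finset.subset_univ _), Finset.card_pair hss,
      Finset.card_univ, Fintype.card_option, Fintype.card_units]
    omega
  · rw [← Finset.card_univ]
    refine Finset.card_le_card_of_injOn (fun l => l.2) (fun _ _ => Finset.mem_coe.2 (Finset.mem_univ _)) ?_
    rintro ⟨m, u⟩ hl ⟨m', u'⟩ hl' he
    have h1 : m = d := (Finset.mem_filter.1 (Finset.mem_coe.1 hl)).2
    have h2 : m' = d := (Finset.mem_filter.1 (Finset.mem_coe.1 hl')).2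
    simp only at he
    rw [h1, h2, he]

/-- The points of a type which are not hubs: at most `k + 1`. -/
lemma card_points (l : Ty F) :
    (Finset.univ.filter fun P : FP F => Inc l P).card ≤ Fintype.card {y : F // AS y} + 1 := by
  obtain ⟨s, u⟩ := l
  have h1 : (Finset.univ.filter fun P : FP F => Inc (s, u) P).card ≤
      (Finset.univ : Finset (Option {y : F // AS y})).card := by
    rcases s with _ | m
    · -- the vertical line `x = u`
      refine Finset.card_le_card_of_injOn (fun P => match P with
        | Sum.inl p => some ⟨p.1.2 / p.1.1 ^ 2, p.2⟩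
        | Sum.inr _ => none) (fun _ _ => Finset.mem_coe.2 (Finset.mem_univ _)) ?_
      rintro (⟨⟨x, y⟩, hp⟩ | d) hP (⟨⟨x', y'⟩, hp'⟩ | d') hP' he
      · have g1 : x = u := (Finset.mem_filter.1 (Finset.mem_coe.1 hP)).2
        have g2 : x' = u := (Finset.mem_filter.1 (Finset.mem_coe.1 hP')).2
        simp only [Option.some.injEq, Subtype.mk.injEq] at he
        subst g1
        have g3 : x' = u := g2
        subst g3
        have hu : (u : F) ^ 2 ≠ 0 := pow_ne_zero 2 u.ne_zero
        have := (div_left_inj' hu).1 he
        subst this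
        rfl
      · simp at he
      · simp at he
      · have g1 : none = d := (Finset.mem_filter.1 (Finset.mem_coe.1 hP)).2
        have g2 : none = d' := (Finset.mem_filter.1 (Finset.mem_coe.1 hP')).2
        rw [← g1, ← g2]
    · refine Finset.card_le_card_of_injOn (fun P => match P with
        | Sum.inl p => if h : AS ((u : F) / p.1.1 ^ 2) then some ⟨_, h⟩ else none
        | Sum.inr _ => none) (fun _ _ => Finset.mem_coe.2 (Finset.mem_univ _)) ?_
      have hAS : ∀ x y : F, AS (y / x ^ 2) → y = m * x + m ^ 2 + u → AS ((u : F) / x ^ 2) := by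
        intro x y h1 h2
        rw [h2, div_sq, (AS.self _).add_iff] at h1
        exact h1
      rintro (⟨⟨x, y⟩, hp⟩ | d) hP (⟨⟨x', y'⟩, hp'⟩ | d') hP' he
      · have g1 : y = m * x + m ^ 2 + u := (Finset.mem_filter.1 (Finset.mem_coe.1 hP)).2
        have g2 : y' = m * x' + m ^ 2 + u := (Finset.mem_filter.1 (Finset.mem_coe.1 hP')).2
        simp only [hAS x y hp g1, hAS x' y' hp' g2, dif_pos, Option.some.injEq,
          Subtype.mk.injEq] at he
        have g3 : x = x' := sq_div_injective u.ne_zero he
        subst g3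
        rw [← g1] at g2
        subst g2
        rfl
      · have g1 : y = m * x + m ^ 2 + u := (Finset.mem_filter.1 (Finset.mem_coe.1 hP)).2
        simp [hAS x y hp g1] at he
      · have g2 : y' = m * x' + m ^ 2 + u := (Finset.mem_filter.1 (Finset.mem_coe.1 hP')).2
        simp [hAS x' y' hp' g2] at he
      · have g1 : some m = d := (Finset.mem_filter.1 (Finset.mem_coe.1 hP)).2
        have g2 : some m = d' := (Finset.mem_filter.1 (Finset.mem_coe.1 hP')).2
        rw [← g1, ← g2]
  refine h1.trans (le_of_eq ?_)
  rw [Finset.card_univ, Fintype.card_option]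

/-- The types. -/
abbrev Types (F : Type) [Field F] : Type := Ty F × Z F

theorem exists_design {k : ℕ} (hF : Fintype.card F = 2 * k) :
    ∃ (Hb Fb : Type) (_ : Fintype Hb) (_ : Fintype Fb),
      Nonempty (Design k (2 * k * (k + 1)) (Types F) Hb Fb) := by
  have hZ : Fintype.card (Z F) = k := by
    have := card_Z (F := F)
    omega
  have hA : Fintype.card {y : F // AS y} = k := by
    have := card_AS (F := F)
    omega
  have hk : 1 ≤ k := by
    have : 0 < Fintype.card F := Fintype.card_pos
    omega
  obtain ⟨⟨z0, hz0⟩⟩ : Nonempty (Z F) := Fintype.card_pos_iff.1 (by omega)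
  -- the indices of the types through a point
  have hind : ∀ P : FP F, ∃ g : Ty F → Fˣ, ∀ l l', Inc l P → Inc l' P → g l = g l' → l = l' := by
    intro P
    obtain ⟨f⟩ : Nonempty ({l : Ty F // Inc l P} ↪ Fˣ) := by
      apply Function.Embedding.nonempty_of_card_le
      rw [Fintype.card_subtype]
      exact card_through P
    refine ⟨fun l => if h : Inc l P then f ⟨l, h⟩ else 1, fun l l' h h' he => ?_⟩
    simp only [h, h', dif_pos] at he
    simpa using f.injective he
  choose ind hind using hind
  -- the hubs and the blocks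
  let hub : Fˣ × Z F → Types F → Prop := fun h t => OnPt t.1 h.1 ((h.1 : F) ^ 2 * h.2)
  let blk : FP F × F × Fˣ → Types F → Prop := fun f t => Inc t.1 f.1 ∧
    (t.2 : F) = (f.2.1 / ind f.1 t.1 + (f.2.1 / ind f.1 t.1) ^ 2) +
      (f.2.2 : F) / (ind f.1 t.1 : F) ^ 2
  have card_blk : ∀ f, (Finset.univ.filter (fun t => blk f t)).card ≤ k := by
    rintro ⟨P, m, b⟩
    rw [← hZ, ← Finset.card_univ]
    have hz : ∀ t : Types F, blk (P, m, b) t → ¬ AS ((b : F) / (ind P t.1 : F) ^ 2) := by
      rintro ⟨l, z⟩ ⟨-, h⟩ hcon
      apply z.2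
      have h' : (z : F) = (m / ind P l + (m / ind P l) ^ 2) + (b : F) / (ind P l : F) ^ 2 := h
      rw [h']
      exact (AS.self _).add hcon
    refine Finset.card_le_card_of_injOn (fun t => if h : AS ((b : F) / (ind P t.1 : F) ^ 2)
      then ⟨z0, hz0⟩ else ⟨_, h⟩) (fun _ _ => Finset.mem_coe.2 (Finset.mem_univ _)) ?_
    intro t ht t' ht' he
    have g1 : blk (P, m, b) t := (Finset.mem_filter.1 (Finset.mem_coe.1 ht)).2
    have g2 : blk (P, m, b) t' := (Finset.mem_filter.1 (Finset.mem_coe.1 ht')).2
    simp only [hz t g1, hz t' g2, dif_neg, not_false_eq_true, Subtype.mk.injEq] at he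
    have g3 : (ind P t.1 : F) = ind P t'.1 := sq_div_injective b.ne_zero he
    have g4 : t.1 = t'.1 := hind P _ _ g1.1 g2.1 (Units.ext g3)
    have g5 : (t.2 : F) = t'.2 := by
      rw [g1.2, g2.2]
      simp only [g3]
    exact Prod.ext g4 (Subtype.ext g5)
  -- the labels
  have hlab : ∀ f : FP F × F × Fˣ, ∃ g : Types F → ℕ, (∀ t, blk f t → g t < k) ∧
      ∀ t t', blk f t → blk f t' → g t = g t' → t = t' := by
    intro f
    set s := Finset.univ.filter (fun t => blk f t) with hs
    have hsc : s.card ≤ k := card_blk f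
    refine ⟨fun t => if h : t ∈ s then (s.equivFin ⟨t, h⟩ : ℕ) else 0, ?_, ?_⟩
    · intro t ht
      have hts : t ∈ s := by simp [hs, ht]
      simp only [hts, dif_pos]
      exact lt_of_lt_of_le (Fin.is_lt _) hsc
    · intro t t' ht ht' h
      have hts : t ∈ s := by simp [hs, ht]
      have hts' : t' ∈ s := by simp [hs, ht']
      simp only [hts, hts', dif_pos] at h
      have h2 := s.equivFin.injective (Fin.ext h)
      simpa using h2
  choose lab lab_lt lab_inj using hlab
  -- every type has a hub
  have hub_exists : ∀ l : Ty F, ∃ (x : Fˣ) (z : Z F), OnPt l x ((x : F) ^ 2 * z) := by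
    rintro ⟨_ | m, u⟩
    · exact ⟨u, ⟨z0, hz0⟩, rfl⟩
    · have hz00 : z0 ≠ 0 := by
        rintro rfl
        exact hz0 AS.zero
      obtain ⟨x, hx⟩ := exists_sq ((u : F) / z0)
      have hx0 : x ≠ 0 := by
        rintro rfl
        rw [zero_pow two_ne_zero, eq_comm, div_eq_zero_iff] at hx
        rcases hx with h | h
        · exact u.ne_zero h
        · exact hz00 h
      have hz : (u : F) / x ^ 2 = z0 := by
        rw [hx]
        have := u.ne_zero
        field_simp
      refine ⟨Units.mk0 x hx0, ⟨(m / x + (m / x) ^ 2) + u / x ^ 2, ?_⟩, ?_⟩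
      · rw [(AS.self _).add_iff, hz]
        exact hz0
      · simp only [Units.val_mk0]
        rw [onPt_some hx0]
  refine ⟨Fˣ × Z F, FP F × F × Fˣ, inferInstance, inferInstance,
    ⟨{ hub := hub
       blk := blk
       lab := lab
       hub_card := ?_
       hub_exists := fun t => ?_
       card_hub := ?_
       blk_card := ?_
       card_blk := fun f => by convert card_blk f
       lab_lt := lab_lt
       lab_inj := lab_inj
       cover := ?_ }⟩⟩
  · -- every type is in at most `k` hubs
    rintro ⟨⟨s, u⟩, z⟩
    rw [← hZ, ← Finset.card_univ]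
    rcases s with _ | m
    · refine Finset.card_le_card_of_injOn (fun h => h.2)
        (fun _ _ => Finset.mem_coe.2 (Finset.mem_univ _)) ?_
      rintro ⟨x, y⟩ h ⟨x', y'⟩ h' he
      have g1 : (x : F) = u := (Finset.mem_filter.1 (Finset.mem_coe.1 h)).2
      have g2 : (x' : F) = u := (Finset.mem_filter.1 (Finset.mem_coe.1 h')).2
      simp only at he
      exact Prod.ext (Units.ext (g1.trans g2.symm)) he
    · have hz : ∀ h : Fˣ × Z F, OnPt (some m, u) (h.1 : F) ((h.1 : F) ^ 2 * h.2) →
          ¬ AS ((u : F) / (h.1 : F) ^ 2) := by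
        rintro ⟨x, y⟩ h hcon
        rw [onPt_some x.ne_zero] at h
        apply y.2
        rw [h]
        exact (AS.self _).add hcon
      refine Finset.card_le_card_of_injOn (fun h => if g : AS ((u : F) / (h.1 : F) ^ 2)
        then ⟨z0, hz0⟩ else ⟨_, g⟩) (fun _ _ => Finset.mem_coe.2 (Finset.mem_univ _)) ?_
      intro h hh h' hh' he
      have g1 : OnPt (some m, u) (h.1 : F) ((h.1 : F) ^ 2 * h.2) :=
        (Finset.mem_filter.1 (Finset.mem_coe.1 hh)).2
      have g2 : OnPt (some m, u) (h'.1 : F) ((h'.1 : F) ^ 2 * h'.2) :=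
        (Finset.mem_filter.1 (Finset.mem_coe.1 hh')).2
      simp only [hz h g1, hz h' g2, dif_neg, not_false_eq_true, Subtype.mk.injEq] at he
      have g3 : (h.1 : F) = h'.1 := sq_div_injective u.ne_zero he
      rw [onPt_some h.1.ne_zero] at g1
      rw [onPt_some h'.1.ne_zero] at g2
      have g5 : (h.2 : F) = h'.2 := by rw [g1, g2, g3]
      exact Prod.ext (Units.ext g3) (Subtype.ext g5)
  · obtain ⟨x, z, h⟩ := hub_exists t.1
    exact ⟨(x, z), h⟩
  · -- every hub has at most `(q + 1) k` types
    rintro ⟨x, z⟩
    have h1 : (Finset.univ.filter (fun t => hub (x, z) t)).card ≤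
        (Finset.univ : Finset (Option F × Z F)).card := by
      refine Finset.card_le_card_of_injOn (fun t => (t.1.1, t.2))
        (fun _ _ => Finset.mem_coe.2 (Finset.mem_univ _)) ?_
      rintro ⟨⟨s, u⟩, y⟩ ht ⟨⟨s', u'⟩, y'⟩ ht' he
      have g1 : OnPt (s, u) x ((x : F) ^ 2 * z) := (Finset.mem_filter.1 (Finset.mem_coe.1 ht)).2
      have g2 : OnPt (s', u') x ((x : F) ^ 2 * z) :=
        (Finset.mem_filter.1 (Finset.mem_coe.1 ht')).2
      simp only [Prod.mk.injEq] at he
      obtain ⟨rfl, rfl⟩ := he
      have g3 : u = u' := by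
        rcases s with _ | m
        · have g1' : (x : F) = u := g1
          have g2' : (x : F) = u' := g2
          exact Units.ext (g1'.symm.trans g2')
        · have g1' : (x : F) ^ 2 * z = m * x + m ^ 2 + u := g1
          have g2' : (x : F) ^ 2 * z = m * x + m ^ 2 + u' := g2
          exact Units.ext (add_left_cancel (g1'.symm.trans g2'))
      rw [g3]
    refine h1.trans ?_
    rw [Finset.card_univ, Fintype.card_prod, Fintype.card_option, hF, hZ]
    nlinarith
  · -- every type is in at most `q (k + 1)` blocks
    rintro ⟨l, z⟩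
    have h1 : (Finset.univ.filter (fun f => blk f (l, z))).card ≤
        ((Finset.univ.filter fun P : FP F => Inc l P) ×ˢ (Finset.univ : Finset F)).card := by
      refine Finset.card_le_card_of_injOn (fun f => (f.1, f.2.1)) ?_ ?_
      · intro f hf
        have g1 : blk f (l, z) := (Finset.mem_filter.1 (Finset.mem_coe.1 hf)).2
        rw [Finset.mem_coe, Finset.mem_product, Finset.mem_filter]
        exact ⟨⟨Finset.mem_univ _, g1.1⟩, Finset.mem_univ _⟩
      · rintro ⟨P, m, b⟩ hf ⟨P', m', b'⟩ hf' he
        have g1 : blk (P, m, b) (l, z) := (Finset.mem_filter.1 (Finset.mem_coe.1 hf)).2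
        have g2 : blk (P', m', b') (l, z) := (Finset.mem_filter.1 (Finset.mem_coe.1 hf')).2
        simp only [Prod.mk.injEq] at he
        obtain ⟨rfl, rfl⟩ := he
        have g3 : (b : F) / (ind P l : F) ^ 2 = (b' : F) / (ind P l : F) ^ 2 :=
          add_left_cancel (g1.2.symm.trans g2.2)
        have g4 : (b : F) = b' := (div_left_inj' (pow_ne_zero 2 (ind P l).ne_zero)).1 g3
        rw [Units.ext g4]
    refine le_trans (le_of_eq (by congr!)) (h1.trans ?_)
    rw [Finset.card_product, Finset.card_univ, hF]
    have h2 := card_points l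
    rw [hA] at h2
    calc _ ≤ (k + 1) * (2 * k) := Nat.mul_le_mul_right _ h2
      _ = 2 * k * (k + 1) := by ring
  · -- two types are in a common hub or block
    rintro ⟨l, z⟩ ⟨l', z'⟩ hne
    by_cases hl : l = l'
    · subst hl
      obtain ⟨x, y, h⟩ := hub_exists l
      exact Or.inl ⟨(x, y), h, h⟩
    · rcases meet hl with ⟨x, y, h, h'⟩ | ⟨P, h, h'⟩
      · exact Or.inl ⟨(x, y), h, h'⟩
      · right
        set c := ind P l with hc
        set c' := ind P l' with hc'
        have hcc : (c : F) + c' ≠ 0 := by
          intro h0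
          exact hl (hind P l l' h h' (Units.ext (CharTwo.add_eq_zero.1 h0)))
        have hc0 : (c : F) ≠ 0 := c.ne_zero
        have hc0' : (c' : F) ≠ 0 := c'.ne_zero
        -- the line through the two points
        set m : F := ((c : F) ^ 2 * z + (c' : F) ^ 2 * z') / (c + c') with hm
        set b : F := (c : F) ^ 2 * z + m * c + m ^ 2 with hb
        have hm' : m * c + m * c' = (c : F) ^ 2 * z + (c' : F) ^ 2 * z' := by
          rw [← mul_add, hm, div_mul_cancel₀ _ hcc]
        have hbz : (c : F) ^ 2 * z = m * c + m ^ 2 + b := by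
          have : m * c + m ^ 2 + b = (c : F) ^ 2 * z + ((m * c + m ^ 2) + (m * c + m ^ 2)) := by
            rw [hb]; ring
          rw [this, CharTwo.add_self_eq_zero, add_zero]
        have hbz' : (c' : F) ^ 2 * z' = m * c' + m ^ 2 + b := by
          have h1 : (c' : F) ^ 2 * z' = (m * c + m * c') + (c : F) ^ 2 * z := by
            rw [hm', add_comm ((c : F) ^ 2 * (z : F)), add_assoc, CharTwo.add_self_eq_zero,
              add_zero]
          rw [h1, hbz]
          have : m * c + m * c' + (m * c + m ^ 2 + b) = m * c' + m ^ 2 + b + (m * c + m * c) := by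
            ring
          rw [this, CharTwo.add_self_eq_zero, add_zero]
        have e1 : (z : F) = (m / c + (m / c) ^ 2) + b / (c : F) ^ 2 := by
          rw [← div_sq, ← hbz, mul_div_cancel_left₀ _ (pow_ne_zero 2 hc0)]
        have e2 : (z' : F) = (m / c' + (m / c') ^ 2) + b / (c' : F) ^ 2 := by
          rw [← div_sq, ← hbz', mul_div_cancel_left₀ _ (pow_ne_zero 2 hc0')]
        have hb0 : b ≠ 0 := by
          intro h0
          apply z.2
          rw [e1, h0, zero_div, add_zero]
          exact AS.self _
        exact ⟨(P, m, Units.mk0 b hb0), ⟨h, e1⟩, ⟨h', e2⟩⟩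

lemma card_types {k : ℕ} (hF : Fintype.card F = 2 * k) :
    Fintype.card (Types F) = (2 * k + 1) * (2 * k - 1) * k := by
  have hZ : Fintype.card (Z F) = k := by
    have := card_Z (F := F)
    omega
  rw [Fintype.card_prod, Fintype.card_prod, Fintype.card_option, Fintype.card_units, hF, hZ]

end field

/-- For the powers `k` of two: `M_k(D) ≥ ((4k² - 1) / (2k + 2)) D - C`. -/
theorem arc_bound (j : ℕ) : ∃ C : ℝ, ∀ D : ℕ,
    ((4 * (2 ^ j : ℝ) ^ 2 - 1) / (2 * 2 ^ j + 2)) * D - C ≤ M (2 ^ j) D := by
  set k : ℕ := 2 ^ j with hk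
  have hk1 : 1 ≤ k := Nat.one_le_two_pow
  haveI : Fact (Nat.Prime 2) := ⟨Nat.prime_two⟩
  set F := GaloisField 2 (j + 1) with hFdef
  haveI : Fintype F := Fintype.ofFinite F
  have hcard : Fintype.card F = 2 * k := by
    rw [← Nat.card_eq_fintype_card, GaloisField.card 2 (j + 1) (Nat.succ_ne_zero j), hk, pow_succ,
      mul_comm]
  obtain ⟨Hb, Fb, _, _, ⟨X⟩⟩ := exists_design (F := F) hcard
  obtain ⟨C, hC⟩ := X.lower_bound hk1 (by nlinarith)
  refine ⟨C, fun D => le_trans (le_of_eq ?_) (hC D)⟩
  congr 1
  congr 1
  rw [card_types hcard]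
  have h1 : ((2 * k - 1 : ℕ) : ℝ) = 2 * k - 1 := by
    rw [Nat.cast_sub (by omega)]
    push_cast
    ring
  have h2 : (2 ^ j : ℝ) = (k : ℝ) := by rw [hk]; push_cast; ring
  rw [h2]
  push_cast [h1]
  have h3 : (0 : ℝ) < k := by exact_mod_cast hk1
  field_simp
  ring

end Pool.Agent.Helper32.Arc
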