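import Pool.Agent.Helper32.LK.WMcD
import Pool.Agent.Helper32.Sq.Part3

/-!
# The random partial colouring: blocked colours
-/

set_option autoImplicit false
set_option linter.unusedSectionVars false
set_option linter.style.haveILetI false

namespace Pool.Agent.Helper32.LK

open Pool.Agent.Helper32.Sq

variable {V : Type} [Fintype V] [DecidableEq V]
variable {X m : ℕ}

/-- The weight of the active vertices of `T` with colour `γ`. -/
noncomputable def sg (T : Finset V) (a : V → ℝ) (ω : V → Fin X × Fin m) (γ : Fin X) : ℝ :=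
  ∑ w ∈ T, if (ω w).1 = γ ∧ ((ω w).2 : ℕ) = 0 then a w else 0

/-- The truncated linear function. -/
noncomputable def ph (κ s : ℝ) : ℝ := min 1 (max 0 ((s - (1 - κ)) * (2 / κ)))

/-- The (smoothed) number of heavy colours. -/
noncomputable def Ph (κ : ℝ) (T : Finset V) (a : V → ℝ) (ω : V → Fin X × Fin m) : ℝ :=
  ∑ γ : Fin X, ph κ (sg T a ω γ)

lemma ph_nonneg (κ s : ℝ) : 0 ≤ ph κ s := le_min zero_le_one (le_max_left _ _)

lemma ph_lip (κ : ℝ) (hκ : 0 < κ) (s s' : ℝ) : |ph κ s - ph κ s'| ≤ 2 / κ * |s - s'| := by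
  have h1 : ∀ x y : ℝ, |min 1 (max 0 x) - min 1 (max 0 y)| ≤ |x - y| := by
    intro x y
    refine (abs_min_sub_min_le_max 1 (max 0 x) 1 (max 0 y)).trans ?_
    rw [sub_self, abs_zero]
    refine max_le (abs_nonneg _) ?_
    refine (abs_max_sub_max_le_max 0 x 0 y).trans ?_
    rw [sub_self, abs_zero]
    exact max_le (abs_nonneg _) le_rfl
  refine (h1 _ _).trans (le_of_eq ?_)
  rw [← sub_mul, abs_mul, abs_of_pos (show 0 < 2 / κ by positivity), mul_comm]
  congr 2
  ring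

lemma sg_nonneg (T : Finset V) (a : V → ℝ) (ha : ∀ w ∈ T, 0 ≤ a w) (ω : V → Fin X × Fin m)
    (γ : Fin X) : 0 ≤ sg T a ω γ := by
  unfold sg
  apply Finset.sum_nonneg
  intro w hw
  split_ifs
  · exact ha w hw
  · exact le_rfl

lemma sg_congr {T : Finset V} {a : V → ℝ} {ω ω' : V → Fin X × Fin m}
    (h : ∀ w ∈ T, a w = 0 ∨ ω w = ω' w) (γ : Fin X) : sg T a ω γ = sg T a ω' γ := by
  unfold sg
  apply Finset.sum_congr rfl
  intro w hw
  rcases h w hw with h1 | h1
  · rw [h1]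
    simp
  · rw [h1]

lemma Ph_congr {κ : ℝ} {T : Finset V} {a : V → ℝ} {ω ω' : V → Fin X × Fin m}
    (h : ∀ w ∈ T, a w = 0 ∨ ω w = ω' w) : Ph κ T a ω = Ph κ T a ω' := by
  unfold Ph
  apply Finset.sum_congr rfl
  intro γ _
  rw [sg_congr h]

lemma sg_diff {T : Finset V} {a : V → ℝ} {i : V} (hi : i ∈ T) (ha : 0 ≤ a i)
    {ω ω' : V → Fin X × Fin m} (h : ∀ j, j ≠ i → ω j = ω' j) (γ : Fin X) :
    |sg T a ω γ - sg T a ω' γ| ≤
      a i * ((if (ω i).1 = γ then 1 else 0) + (if (ω' i).1 = γ then 1 else 0)) := by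
  unfold sg
  rw [← Finset.sum_sub_distrib]
  rw [Finset.sum_eq_single_of_mem i hi (by
    intro j _ hj
    rw [h j hj, sub_self])]
  split_ifs <;> simp_all [abs_of_nonneg] <;> linarith

lemma Ph_lip {κ : ℝ} (hκ : 0 < κ) {T : Finset V} {a : V → ℝ} {i : V} (hi : i ∈ T) (ha : 0 ≤ a i)
    {ω ω' : V → Fin X × Fin m} (h : ∀ j, j ≠ i → ω j = ω' j) :
    |Ph κ T a ω - Ph κ T a ω'| ≤ 4 / κ * a i := by
  unfold Ph
  rw [← Finset.sum_sub_distrib]
  refine (Finset.abs_sum_le_sum_abs _ _).trans ?_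
  calc ∑ γ : Fin X, |ph κ (sg T a ω γ) - ph κ (sg T a ω' γ)|
      ≤ ∑ γ : Fin X, 2 / κ * (a i *
        ((if (ω i).1 = γ then 1 else 0) + (if (ω' i).1 = γ then 1 else 0))) := by
        apply Finset.sum_le_sum
        intro γ _
        exact (ph_lip κ hκ _ _).trans
          (mul_le_mul_of_nonneg_left (sg_diff hi ha h γ) (by positivity))
    _ = 4 / κ * a i := by
        rw [← Finset.mul_sum, ← Finset.mul_sum, Finset.sum_add_distrib]
        simp
        ring

/-- The pairs of different active vertices with the same colour control the heavy colours. -/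
lemma ph_le {κ : ℝ} (hκ : 0 < κ) (hκ1 : κ ≤ 1 / 2) {T : Finset V} {a : V → ℝ}
    (ha : ∀ w ∈ T, 0 ≤ a w) (ha1 : ∀ w ∈ T, a w ≤ 1 - κ) (ω : V → Fin X × Fin m) (γ : Fin X) :
    ph κ (sg T a ω γ) ≤ 4 / κ * ∑ w ∈ T, ∑ w' ∈ T.erase w,
      if ω w = ω w' ∧ (ω w).1 = γ ∧ ((ω w).2 : ℕ) = 0 then a w * a w' else 0 := by
  set s := sg T a ω γ with hs
  set e : V → ℝ := fun w => if (ω w).1 = γ ∧ ((ω w).2 : ℕ) = 0 then a w else 0 with he
  have he0 : ∀ w ∈ T, 0 ≤ e w := by
    intro w hw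
    simp only [he]
    split_ifs
    · exact ha w hw
    · exact le_rfl
  have he1 : ∀ w ∈ T, e w ≤ 1 - κ := by
    intro w hw
    simp only [he]
    split_ifs
    · exact ha1 w hw
    · linarith
  have hse : s = ∑ w ∈ T, e w := rfl
  have h1 : ∀ w ∈ T, ∑ w' ∈ T.erase w,
      (if ω w = ω w' ∧ (ω w).1 = γ ∧ ((ω w).2 : ℕ) = 0 then a w * a w' else 0) =
      e w * (s - e w) := by
    intro w hw
    rw [hse, ← Finset.sum_erase_eq_sub hw, Finset.mul_sum]
    apply Finset.sum_congr rfl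
    intro w' _
    simp only [he]
    by_cases h2 : (ω w).1 = γ ∧ ((ω w).2 : ℕ) = 0
    · by_cases h3 : (ω w').1 = γ ∧ ((ω w').2 : ℕ) = 0
      · have h4 : ω w = ω w' := Prod.ext (h2.1.trans h3.1.symm) (Fin.ext (h2.2.trans h3.2.symm))
        rw [if_pos ⟨h4, h2⟩, if_pos h2, if_pos h3]
      · rw [if_neg h3, mul_zero, if_neg]
        rintro ⟨h4, -⟩
        rw [h4] at h2
        exact h3 h2
    · rw [if_neg (fun h => h2 h.2), if_neg h2, zero_mul]
  rw [Finset.sum_congr rfl h1]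
  have h2 : ∑ w ∈ T, e w * (s - (1 - κ)) ≤ ∑ w ∈ T, e w * (s - e w) := by
    apply Finset.sum_le_sum
    intro w hw
    apply mul_le_mul_of_nonneg_left _ (he0 w hw)
    have := he1 w hw
    linarith
  rw [← Finset.sum_mul, ← hse] at h2
  have h3 : 0 ≤ ∑ w ∈ T, e w * (s - e w) := by
    apply Finset.sum_nonneg
    intro w hw
    apply mul_nonneg (he0 w hw)
    rw [hse]
    have := Finset.single_le_sum he0 hw
    linarith
  unfold ph
  refine (min_le_right _ _).trans (max_le (by positivity) ?_)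
  rcases le_or_gt s (1 - κ) with h4 | h4
  · exact (mul_nonpos_of_nonpos_of_nonneg (by linarith) (by positivity)).trans (by positivity)
  · have h5 : (s - (1 - κ)) * 1 ≤ (s - (1 - κ)) * (2 * s) :=
      mul_le_mul_of_nonneg_left (by linarith) (by linarith)
    calc (s - (1 - κ)) * (2 / κ) ≤ (2 * (s * (s - (1 - κ)))) * (2 / κ) := by
          apply mul_le_mul_of_nonneg_right _ (by positivity)
          linarith
      _ = 4 / κ * (s * (s - (1 - κ))) := by ring
      _ ≤ _ := mul_le_mul_of_nonneg_left h2 (by positivity)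

/-- The mean of the number of heavy colours. -/
lemma sum_Ph_le {κ : ℝ} (hκ : 0 < κ) (hκ1 : κ ≤ 1 / 2) (hX : 0 < X) (hm : 0 < m) {T : Finset V}
    {a : V → ℝ} (ha : ∀ w ∈ T, 0 ≤ a w) (ha1 : ∀ w ∈ T, a w ≤ 1 - κ) :
    ∑ ω : V → Fin X × Fin m, Ph κ T a ω ≤
      4 / κ * ((∑ w ∈ T, a w) ^ 2 / (X * m ^ 2)) * Fintype.card (V → Fin X × Fin m) := by
  classical
  have hX' : (0 : ℝ) < X := by exact_mod_cast hX
  have hm' : (0 : ℝ) < m := by exact_mod_cast hm
  set Ω := V → Fin X × Fin m with hΩ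
  have hpair : ∀ (γ : Fin X) (w w' : V), w ≠ w' →
      (((Finset.univ : Finset Ω).filter fun ω =>
        ω w = ω w' ∧ (ω w).1 = γ ∧ ((ω w).2 : ℕ) = 0).card : ℝ) =
        Fintype.card Ω / (X * m : ℝ) ^ 2 := by
    intro γ w w' hww
    have h1 := card_prescribed (ι := V) ({w, w'} : Finset V)
      (fun _ => ((γ, ⟨0, hm⟩) : Fin X × Fin m))
    rw [Finset.card_pair hww, card_alpha] at h1
    rw [eq_div_iff (by positivity), ← h1]
    congr 3
    ext ω
    simp only [Finset.mem_filter, Finset.mem_univ, true_and, Finset.mem_insert,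
      Finset.mem_singleton, forall_eq_or_imp, forall_eq]
    constructor
    · rintro ⟨h2, h3, h4⟩
      have h5 : ω w = (γ, ⟨0, hm⟩) := Prod.ext h3 (Fin.ext h4)
      exact ⟨h5, h2 ▸ h5⟩
    · rintro ⟨h2, h3⟩
      refine ⟨h2.trans h3.symm, ?_, ?_⟩ <;> rw [h2]
  have h1 : ∑ ω : Ω, Ph κ T a ω ≤ ∑ ω : Ω, ∑ γ : Fin X, 4 / κ * ∑ w ∈ T, ∑ w' ∈ T.erase w,
      (if ω w = ω w' ∧ (ω w).1 = γ ∧ ((ω w).2 : ℕ) = 0 then a w * a w' else 0) :=
    Finset.sum_le_sum fun ω _ => Finset.sum_le_sum fun γ _ => ph_le hκ hκ1 ha ha1 ω γ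
  refine h1.trans ?_
  have h2 : ∑ ω : Ω, ∑ γ : Fin X, 4 / κ * ∑ w ∈ T, ∑ w' ∈ T.erase w,
      (if ω w = ω w' ∧ (ω w).1 = γ ∧ ((ω w).2 : ℕ) = 0 then a w * a w' else 0) =
      4 / κ * ∑ w ∈ T, ∑ w' ∈ T.erase w, ∑ γ : Fin X,
        a w * a w' * (Fintype.card Ω / (X * m : ℝ) ^ 2) := by
    rw [Finset.sum_comm]
    simp_rw [← Finset.mul_sum]
    congr 1
    simp_rw [Finset.mul_sum]
    calc ∑ γ : Fin X, ∑ ω : Ω, ∑ w ∈ T, ∑ w' ∈ T.erase w,
          (if ω w = ω w' ∧ (ω w).1 = γ ∧ ((ω w).2 : ℕ) = 0 then a w * a w' else 0)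
        = ∑ γ : Fin X, ∑ w ∈ T, ∑ w' ∈ T.erase w, ∑ ω : Ω,
          (if ω w = ω w' ∧ (ω w).1 = γ ∧ ((ω w).2 : ℕ) = 0 then a w * a w' else 0) := by
          apply Finset.sum_congr rfl
          intro γ _
          rw [Finset.sum_comm]
          apply Finset.sum_congr rfl
          intro w _
          rw [Finset.sum_comm]
      _ = ∑ γ : Fin X, ∑ w ∈ T, ∑ w' ∈ T.erase w,
          a w * a w' * (Fintype.card Ω / (X * m : ℝ) ^ 2) := by
          apply Finset.sum_congr rfl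
          intro γ _
          apply Finset.sum_congr rfl
          intro w _
          apply Finset.sum_congr rfl
          intro w' hw'
          rw [← Finset.sum_filter, Finset.sum_const, nsmul_eq_mul,
            hpair γ w w' (Finset.ne_of_mem_erase hw').symm]
          ring
      _ = _ := by
          rw [Finset.sum_comm]
          apply Finset.sum_congr rfl
          intro w _
          rw [Finset.sum_comm]
  rw [h2]
  have h3 : ∑ w ∈ T, ∑ w' ∈ T.erase w, ∑ _γ : Fin X,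
        a w * a w' * (Fintype.card Ω / (X * m : ℝ) ^ 2) ≤
      (∑ w ∈ T, a w) ^ 2 / (X * m ^ 2) * Fintype.card Ω := by
    calc ∑ w ∈ T, ∑ w' ∈ T.erase w, ∑ _γ : Fin X,
          a w * a w' * (Fintype.card Ω / (X * m : ℝ) ^ 2)
        = ∑ w ∈ T, ∑ w' ∈ T.erase w, a w * a w' * (Fintype.card Ω / (X * m ^ 2)) := by
          apply Finset.sum_congr rfl
          intro w _
          apply Finset.sum_congr rfl
          intro w' _
          rw [Finset.sum_const, Finset.card_univ, Fintype.card_fin, nsmul_eq_mul]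
          field_simp
      _ ≤ ∑ w ∈ T, ∑ w' ∈ T, a w * a w' * (Fintype.card Ω / (X * m ^ 2)) := by
          apply Finset.sum_le_sum
          intro w hw
          apply Finset.sum_le_sum_of_subset_of_nonneg (Finset.erase_subset _ _)
          intro w' hw' _
          have := ha w hw
          have := ha w' hw'
          positivity
      _ = (∑ w ∈ T, a w) ^ 2 / (X * m ^ 2) * Fintype.card Ω := by
          rw [show (∑ w ∈ T, a w) ^ 2 = (∑ w ∈ T, a w) * ∑ w ∈ T, a w from sq _,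
            Finset.sum_mul_sum, Finset.sum_div, Finset.sum_mul]
          apply Finset.sum_congr rfl
          intro w _
          rw [Finset.sum_div, Finset.sum_mul]
          apply Finset.sum_congr rfl
          intro w' _
          ring
  calc 4 / κ * ∑ w ∈ T, ∑ w' ∈ T.erase w, ∑ _γ : Fin X,
        a w * a w' * (Fintype.card Ω / (X * m : ℝ) ^ 2)
      ≤ 4 / κ * ((∑ w ∈ T, a w) ^ 2 / (X * m ^ 2) * Fintype.card Ω) :=
        mul_le_mul_of_nonneg_left h3 (by positivity)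
    _ = _ := by ring

/-- Few colours are heavy. -/
lemma bad_three {κ : ℝ} (hκ : 0 < κ) (hκ1 : κ ≤ 1 / 2) (hX : 0 < X) (hm : 0 < m) (T : Finset V)
    (a : V → ℝ) (ha : ∀ w ∈ T, 0 ≤ a w) (ha1 : ∀ w ∈ T, a w ≤ 1 - κ) (L t : ℝ) (hL : 0 < L)
    (hsum : ∑ w ∈ T, a w ≤ L) (ht : 0 ≤ t) (hmean : 4 / κ * (L ^ 2 / (X * m ^ 2)) ≤ t / 2) :
    (((Finset.univ : Finset (V → Fin X × Fin m)).filter fun ω => t < Ph κ T a ω).card : ℝ) ≤
      Fintype.card (V → Fin X × Fin m) * Real.exp (-(t / 2) ^ 2 / (2 * (16 / κ ^ 2 * L))) := by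
  classical
  haveI : Nonempty (Fin X × Fin m) := ⟨(⟨0, hX⟩, ⟨0, hm⟩)⟩
  have hX' : (0 : ℝ) < X := by exact_mod_cast hX
  have hm' : (0 : ℝ) < m := by exact_mod_cast hm
  refine wmcd_upper T (Ph κ T a) (fun i => 4 / κ * a i)
    (fun ω ω' h => Ph_congr fun w hw => Or.inr (h w hw))
    (fun i hi ω ω' h => Ph_lip hκ hi (ha i hi) h) (16 / κ ^ 2 * L) (by positivity) ?_
    (t / 2) (t / 2) (by positivity) ?_ _ ?_
  · calc ∑ i ∈ T, (4 / κ * a i) ^ 2 ≤ ∑ i ∈ T, 16 / κ ^ 2 * a i := by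
          apply Finset.sum_le_sum
          intro i hi
          have h1 := ha i hi
          have h2 := ha1 i hi
          have h3 : a i * a i ≤ 1 * a i := mul_le_mul_of_nonneg_right (by linarith) h1
          calc (4 / κ * a i) ^ 2 = 16 / κ ^ 2 * (a i * a i) := by ring
            _ ≤ 16 / κ ^ 2 * (1 * a i) := mul_le_mul_of_nonneg_left h3 (by positivity)
            _ = _ := by ring
      _ = 16 / κ ^ 2 * ∑ i ∈ T, a i := by rw [Finset.mul_sum]
      _ ≤ _ := mul_le_mul_of_nonneg_left hsum (by positivity)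
  · refine (sum_Ph_le hκ hκ1 hX hm ha ha1).trans ?_
    apply mul_le_mul_of_nonneg_right _ (by positivity)
    refine le_trans ?_ hmean
    apply mul_le_mul_of_nonneg_left _ (by positivity)
    apply div_le_div_of_nonneg_right _ (by positivity)
    exact pow_le_pow_left₀ (Finset.sum_nonneg ha) hsum 2
  · intro ω hω
    rw [Finset.mem_filter] at hω
    linarith [hω.2]

end Pool.Agent.Helper32.LK
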