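import Pool.Agent.Helper48.LK.Defs
import Pool.Agent.Helper49.LK.Split
import Pool.Agent.Helper32.Sq.Upper

/-!
# The assembly: from the random splitting and the colouring of one class to the theorem

`RLStar` and `ColourRL` are the statements of the two other parts (small average inner degree of
sets of about `2kD` vertices, colouring of a graph satisfying the density condition).
-/

set_option autoImplicit false
set_option linter.unusedSectionVars false

namespace Pool.Agent.Helper32.LK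

open Pool.Agent.Helper14.Square Pool.Agent.Helper32.Sq Pool.Agent.Helper48.LK

/-- The statement of `rlstar`. -/
def RLStar : Prop := ∀ (η C : ℝ) (_ : 0 < η) (_ : η ≤ 1) (_ : 0 ≤ C),
    ∃ k0 : ℕ, ∀ k : ℕ, k0 ≤ k → ∃ D0 : ℕ, ∀ D : ℕ, D0 ≤ D →
      ∀ (V : Type) [Fintype V] [DecidableEq V] (W : Finset V) (out : V → Finset V)
        (H : SimpleGraph V) [DecidableRel H.Adj] (F : V → V → Prop) [DecidableRel F],
        (∀ x ∈ W, (out x).card ≤ k) →
        (∀ h, (W.filter fun u => h ∈ out u).card ≤ D) →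
        (∀ x ∈ W, (W.filter fun y => F x y).card ≤ (k - 1) * D) →
        (∀ x ∈ W, ∀ y ∈ W, H.Adj x y → (∃ h ∈ out x, h ∈ out y) ∨ F x y) →
        ((W.card : ℝ) ≤ (2 * k + C) * D) →
        ∑ x ∈ W, (dg H W x : ℝ) ≤ (2 * k - 3 / 2 + η) * D * W.card

/-- The statement of `colour_RL`. -/
def ColourRL : Prop := ∃ C : ℝ, 0 ≤ C ∧ ∀ η : ℝ, 0 < η → η ≤ 1 / 4 →
    ∃ k0 : ℕ, ∀ k : ℕ, k0 ≤ k → ∃ D0 : ℕ, ∀ D : ℕ, D0 ≤ D → ∀ T : ℕ,
      (2 * k - 3 / 2 + η) * D ≤ (T : ℝ) → (T : ℝ) ≤ 3 * k * D →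
      ∀ (V : Type) [Fintype V] [DecidableEq V] (H : SimpleGraph V) [DecidableRel H.Adj]
        (Z : Finset V), (∀ v ∈ Z, (dg H Z v : ℝ) ≤ (2 * k - 1) * D) →
        (∀ W ⊆ Z, ((W.card : ℝ) ≤ (2 * k + C) * D) →
          ∑ x ∈ W, (dg H W x : ℝ) ≤ (2 * k - 3 / 2 + η / 8) * D * W.card) →
        ∃ f : V → Fin T, Proper H Z f

section

variable {V : Type} [Fintype V] [DecidableEq V]

/-- Colouring of a degenerate set. -/
lemma degenerate_colour (H : SimpleGraph V) [DecidableRel H.Adj] (m : ℕ) (A : Finset V)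
    (hA : ∀ U ⊆ A, U.Nonempty → ∃ v ∈ U, dg H U v ≤ m) :
    ∀ U ⊆ A, ∃ f : V → Fin (m + 1), Proper H U f := by
  intro U
  induction U using Finset.strongInduction with
  | H U ih =>
    intro hU
    rcases U.eq_empty_or_nonempty with hne | hne
    · subst hne
      exact ⟨fun _ => 0, fun x hx => absurd hx (Finset.notMem_empty x)⟩
    · obtain ⟨v, hv, hd⟩ := hA U hU hne
      obtain ⟨f, hf⟩ := ih (U.erase v) (Finset.erase_ssubset hv) ((Finset.erase_subset _ _).trans hU)
      obtain ⟨f', hf', -⟩ := hf.extend v (Finset.notMem_erase v U) (by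
        refine lt_of_le_of_lt Finset.card_image_le (Nat.lt_succ_of_le ?_)
        exact (dg_mono H (Finset.erase_subset v U) v).trans hd)
      rw [Finset.insert_erase hv] at hf'
      exact ⟨f', hf'⟩

/-- The exceptional set is degenerate. -/
lemma exceptional_degenerate {k D : ℕ} {out : V → Finset V} (O : Ori k D out) (H : SimpleGraph V)
    [DecidableRel H.Adj] (hH : ∀ x y, H.Adj x y → Rel out x y) (Y : Finset V) (b : ℝ)
    (hY : ∀ x, ((Y.filter fun y => x ≠ y ∧ ((∃ h ∈ out x, h ∈ out y) ∨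
          ∃ w, x ∈ out w ∧ y ∈ out w)).card : ℝ) ≤ b) :
    ∀ U ⊆ Y, U.Nonempty → ∃ v ∈ U, dg H U v ≤ ⌊b + 2 * (k + k ^ 2 : ℝ)⌋₊ := by
  classical
  intro U hU hne
  have hpt : ∀ v ∈ U, (dg H U v : ℝ) ≤ b + (k + k ^ 2 : ℝ) + (desc out U v : ℝ) := by
    intro v _
    have hsub : (U.filter fun u => H.Adj v u) ⊆
        (Y.filter fun y => v ≠ y ∧ ((∃ h ∈ out v, h ∈ out y) ∨ ∃ w, v ∈ out w ∧ y ∈ out w)) ∪
          Anc out v ∪ (U.filter fun u => v ∈ Anc out u) := by
      intro u hu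
      rw [Finset.mem_filter] at hu
      obtain ⟨huU, huv⟩ := hu
      have hne : v ≠ u := H.ne_of_adj huv
      rcases hH v u huv with h | h | h | h
      · exact Finset.mem_union_left _ (Finset.mem_union_right _ h)
      · exact Finset.mem_union_right _ (Finset.mem_filter.2 ⟨huU, h⟩)
      · exact Finset.mem_union_left _ (Finset.mem_union_left _
          (Finset.mem_filter.2 ⟨hU huU, hne, Or.inl h⟩))
      · exact Finset.mem_union_left _ (Finset.mem_union_left _
          (Finset.mem_filter.2 ⟨hU huU, hne, Or.inr h⟩))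
    have h1 : dg H U v ≤ (Y.filter fun y => v ≠ y ∧ ((∃ h ∈ out v, h ∈ out y) ∨
        ∃ w, v ∈ out w ∧ y ∈ out w)).card + (Anc out v).card + desc out U v := by
      unfold dg desc
      refine (Finset.card_le_card hsub).trans ?_
      exact (Finset.card_union_le _ _).trans (Nat.add_le_add_right (Finset.card_union_le _ _) _)
    have h2 : (dg H U v : ℝ) ≤ ((Y.filter fun y => v ≠ y ∧ ((∃ h ∈ out v, h ∈ out y) ∨
        ∃ w, v ∈ out w ∧ y ∈ out w)).card : ℝ) + ((Anc out v).card : ℝ) + (desc out U v : ℝ) := by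
      exact_mod_cast h1
    have h3 : ((Anc out v).card : ℝ) ≤ (k + k ^ 2 : ℝ) := by exact_mod_cast O.card_anc v
    have h4 := hY v
    linarith
  have hdesc : ∑ v ∈ U, (desc out U v : ℝ) ≤ (k + k ^ 2 : ℝ) * U.card := by
    exact_mod_cast O.sum_desc U
  by_contra hcon
  push Not at hcon
  have h5 : ∀ v ∈ U, b + 2 * (k + k ^ 2 : ℝ) < dg H U v := fun v hv => (Nat.floor_lt' (by
    have := hcon v hv
    omega)).1 (hcon v hv)
  have h6 : ∑ _v ∈ U, (b + 2 * (k + k ^ 2 : ℝ)) < ∑ v ∈ U, (dg H U v : ℝ) :=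
    Finset.sum_lt_sum_of_nonempty hne h5
  have h7 : ∑ v ∈ U, (dg H U v : ℝ) ≤ ∑ v ∈ U, (b + (k + k ^ 2 : ℝ) + (desc out U v : ℝ)) :=
    Finset.sum_le_sum hpt
  rw [Finset.sum_const, nsmul_eq_mul] at h6
  rw [Finset.sum_add_distrib, Finset.sum_const, nsmul_eq_mul] at h7
  nlinarith

/-- Gluing colourings of the classes and of the exceptional set. -/
lemma glue_classes (H : SimpleGraph V) [DecidableRel H.Adj] {M T m : ℕ} (β : V → Fin M)
    (Y : Finset V) (fY : V → Fin m) (hY : Proper H Y fY)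
    (fc : Fin M → V → Fin T)
    (hc : ∀ c, Proper H ((Finset.univ : Finset V).filter fun v => v ∉ Y ∧ β v = c) (fc c)) :
    ∃ f : V → Fin (M * T + m), Proper H Finset.univ f := by
  classical
  have hcard : Fintype.card ((Fin M × Fin T) ⊕ Fin m) = M * T + m := by
    rw [Fintype.card_sum, Fintype.card_prod, Fintype.card_fin, Fintype.card_fin, Fintype.card_fin]
  let e := Fintype.equivFinOfCardEq hcard
  let g : V → (Fin M × Fin T) ⊕ Fin m := fun v =>
    if v ∈ Y then Sum.inr (fY v) else Sum.inl (β v, fc (β v) v)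
  refine ⟨fun v => e (g v), ?_⟩
  intro x _ y _ hxy he
  have hg : g x = g y := e.injective he
  by_cases hx : x ∈ Y
  · by_cases hy : y ∈ Y
    · have h1 : fY x = fY y := by
        have : (Sum.inr (fY x) : (Fin M × Fin T) ⊕ Fin m) = Sum.inr (fY y) := by
          simpa [g, hx, hy] using hg
        exact Sum.inr_injective this
      exact hY x hx y hy hxy h1
    · simp [g, hx, hy] at hg
  · by_cases hy : y ∈ Y
    · simp [g, hx, hy] at hg
    · have h1 : (β x, fc (β x) x) = (β y, fc (β y) y) := by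
        have : (Sum.inl (β x, fc (β x) x) : (Fin M × Fin T) ⊕ Fin m) =
            Sum.inl (β y, fc (β y) y) := by simpa only [g, hx, hy, if_false] using hg
        exact Sum.inl_injective this
      have h2 : β x = β y := congrArg Prod.fst h1
      have h3 : fc (β x) x = fc (β x) y := by
        have := congrArg Prod.snd h1
        rw [← h2] at this
        exact this
      refine hc (β x) x (Finset.mem_filter.2 ⟨Finset.mem_univ _, hx, rfl⟩) y
        (Finset.mem_filter.2 ⟨Finset.mem_univ _, hy, h2.symm⟩) hxy h3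

end

set_option maxHeartbeats 1000000 in
/-- The theorem for orientations. -/
theorem main_large_of (hRL : RLStar) (hcolour : ColourRL) (η : ℝ) (hη : 0 < η) :
    ∃ k0 : ℕ, ∀ k : ℕ, k0 ≤ k →
    ∃ D0 : ℕ, ∀ D : ℕ, D0 ≤ D → ∀ (V : Type) [Fintype V] [DecidableEq V]
      (out : V → Finset V) (H : SimpleGraph V) [DecidableRel H.Adj], Ori k D out →
      (∀ x y, H.Adj x y → Rel out x y) →
      ∃ X : ℕ, (X : ℝ) ≤ (2 * k - 3 / 2 + η) * D ∧
        ∃ f : V → Fin X, Proper H Finset.univ f := by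
  classical
  obtain ⟨C, hC, hcol⟩ := hcolour
  set η' : ℝ := min (η / 4) (1 / 4) with hη'
  have hη'0 : 0 < η' := by positivity
  have hη'1 : η' ≤ η / 4 := min_le_left _ _
  have hη'2 : η' ≤ 1 / 4 := min_le_right _ _
  obtain ⟨k1, hk1⟩ := hcol η' hη'0 hη'2
  obtain ⟨k2, hk2⟩ := hRL (η' / 8) C (by positivity) (by linarith) hC
  refine ⟨max (max k1 k2) 1, fun k hk => ?_⟩
  have hkk1 : k1 ≤ k := ((le_max_left _ _).trans (le_max_left _ _)).trans hk
  have hkk2 : k2 ≤ k := ((le_max_right _ _).trans (le_max_left _ _)).trans hk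
  have hkpos : 1 ≤ k := (le_max_right _ _).trans hk
  obtain ⟨D1, hD1⟩ := hk1 k hkk1
  obtain ⟨D2, hD2⟩ := hk2 k hkk2
  have hkR : (1 : ℝ) ≤ k := by exact_mod_cast hkpos
  have hk0 : (0 : ℝ) < k := by linarith
  set η1 : ℝ := η / (16 * k) with hη1
  have hη10 : 0 < η1 := by positivity
  have hη1k : η1 * (16 * k) = η := by rw [hη1]; field_simp
  have hη1s : η1 ≤ η / 16 := by nlinarith
  obtain ⟨M, hM, D3, hD3⟩ := Pool.Agent.Helper49.LK.split_ori k η1 hkpos hη10
  have hMR : (0 : ℝ) < M := by exact_mod_cast hM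
  set K0 : ℝ := 2 * k * M + M + 2 * (k + k ^ 2) + 1 with hK0
  refine ⟨max (max D3 (M * (max D1 D2))) (max 1 ⌈K0 / (η / 2)⌉₊), fun D hD => ?_⟩
  have hDD3 : D3 ≤ D := ((le_max_left _ _).trans (le_max_left _ _)).trans hD
  have hDM : M * (max D1 D2) ≤ D := ((le_max_right _ _).trans (le_max_left _ _)).trans hD
  have hDpos : 1 ≤ D := ((le_max_left _ _).trans (le_max_right _ _)).trans hD
  have hDK : ⌈K0 / (η / 2)⌉₊ ≤ D := ((le_max_right _ _).trans (le_max_right _ _)).trans hD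
  have hDR : (1 : ℝ) ≤ D := by exact_mod_cast hDpos
  have hDR0 : (0 : ℝ) < D := by linarith
  have hKD : K0 ≤ η / 2 * D := by
    have h1 : K0 / (η / 2) ≤ D := (Nat.le_ceil _).trans (by exact_mod_cast hDK)
    rw [div_le_iff₀ (by positivity)] at h1
    linarith
  intro V _ _ out H _ O hH
  obtain ⟨β, Y, hβ1, hβ2, hβ3, hβ4⟩ := hD3 D hDD3 V out O
  set D' : ℕ := ⌈(1 + η1) * D / M⌉₊ with hD'
  have hD'1 : (1 + η1) * D / M ≤ D' := Nat.le_ceil _
  have hD'2 : (D' : ℝ) < (1 + η1) * D / M + 1 := Nat.ceil_lt_add_one (by positivity)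
  have hD'M : (1 + η1) * D ≤ M * D' := by
    rw [div_le_iff₀ hMR] at hD'1
    linarith
  have hD'M2 : M * (D' : ℝ) ≤ (1 + η1) * D + M := by
    have h1 : M * (D' : ℝ) ≤ M * ((1 + η1) * D / M + 1) := by
      apply mul_le_mul_of_nonneg_left hD'2.le hMR.le
    have h2 : M * ((1 + η1) * D / M + 1) = (1 + η1) * D + M := by field_simp
    linarith
  have hmax : max D1 D2 ≤ D' := by
    have h1 : ((M * (max D1 D2) : ℕ) : ℝ) ≤ D := by exact_mod_cast hDM
    push_cast at h1
    have h2 : (M : ℝ) * max (D1 : ℝ) (D2 : ℝ) ≤ M * D' := by nlinarith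
    have h3 := le_of_mul_le_mul_left h2 hMR
    exact_mod_cast h3
  have hD'pos : (0 : ℝ) < D' := by
    have : (0 : ℝ) < (1 + η1) * D / M := by positivity
    linarith
  have hD'one : (1 : ℝ) ≤ D' := by
    have h1 : 0 < D' := by exact_mod_cast hD'pos
    exact_mod_cast h1
  have hkc : ((k - 1 : ℕ) : ℝ) = k - 1 := by rw [Nat.cast_sub hkpos]; simp
  -- the classes
  set Z : Fin M → Finset V := fun c => (Finset.univ : Finset V).filter fun v => v ∉ Y ∧ β v = c
    with hZ
  have hZmem : ∀ {c v}, v ∈ Z c → v ∉ Y ∧ β v = c := fun {c v} hv => (Finset.mem_filter.1 hv).2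
  have hhub : ∀ c h, ((Z c).filter fun u => h ∈ out u).card ≤ D' := by
    intro c h
    have h1 := hβ2 c h
    have h2 : ((Z c).filter fun u => h ∈ out u).card ≤
        ((Finset.univ : Finset V).filter fun u => β u = c ∧ h ∈ out u).card := by
      apply Finset.card_le_card
      intro u hu
      rw [Finset.mem_filter] at hu ⊢
      exact ⟨Finset.mem_univ _, (hZmem hu.1).2, hu.2⟩
    have h3 : (((Z c).filter fun u => h ∈ out u).card : ℝ) ≤
        (((Finset.univ : Finset V).filter fun u => β u = c ∧ h ∈ out u).card : ℝ) := by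
      exact_mod_cast h2
    have h4 : (M : ℝ) * (((Z c).filter fun u => h ∈ out u).card : ℝ) ≤ M * D' := by
      have := mul_le_mul_of_nonneg_left h3 hMR.le
      linarith
    have h5 := le_of_mul_le_mul_left h4 hMR
    exact_mod_cast h5
  set F : V → V → Prop := fun x y => x ≠ y ∧ ∃ w, x ∈ out w ∧ y ∈ out w with hF
  have hFc : ∀ c x, ((Z c).filter fun y => F x y).card ≤ (k - 1) * D' := by
    intro c x
    have h1 := hβ3 c x
    have h2 : ((Z c).filter fun y => F x y).card ≤ ((Finset.univ : Finset V).filter fun y =>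
          β y = c ∧ x ≠ y ∧ ∃ w, x ∈ out w ∧ y ∈ out w).card := by
      apply Finset.card_le_card
      intro u hu
      rw [Finset.mem_filter] at hu ⊢
      exact ⟨Finset.mem_univ _, (hZmem hu.1).2, hu.2⟩
    have h3 : (((Z c).filter fun y => F x y).card : ℝ) ≤ (((Finset.univ : Finset V).filter fun y =>
          β y = c ∧ x ≠ y ∧ ∃ w, x ∈ out w ∧ y ∈ out w).card : ℝ) := by exact_mod_cast h2
    have h4 : (M : ℝ) * (((Z c).filter fun y => F x y).card : ℝ) ≤ M * ((k - 1 : ℕ) * D') := by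
      have g1 := mul_le_mul_of_nonneg_left h3 hMR.le
      have g2 : (0 : ℝ) ≤ ((k - 1 : ℕ) : ℝ) := Nat.cast_nonneg _
      have g3 := mul_le_mul_of_nonneg_left hD'M g2
      have g4 : ((k - 1 : ℕ) : ℝ) * ((1 + η1) * D) = (1 + η1) * ((k - 1 : ℕ) * D) := by ring
      have g5 : ((k - 1 : ℕ) : ℝ) * (M * (D' : ℝ)) = M * ((k - 1 : ℕ) * D') := by ring
      linarith
    have h5 := le_of_mul_le_mul_left h4 hMR
    exact_mod_cast h5
  have hadj : ∀ c, ∀ x ∈ Z c, ∀ y ∈ Z c, H.Adj x y → (∃ h ∈ out x, h ∈ out y) ∨ F x y := by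
    intro c x hx y hy hxy
    have hne : x ≠ y := H.ne_of_adj hxy
    obtain ⟨hxY, hxc⟩ := hZmem hx
    obtain ⟨hyY, hyc⟩ := hZmem hy
    have hc : β x = β y := hxc.trans hyc.symm
    rcases hH x y hxy with h | h | h | h
    · exact absurd h (hβ1 x y hxY hyY hc hne)
    · exact absurd h (hβ1 y x hyY hxY hc.symm hne.symm)
    · exact Or.inl h
    · exact Or.inr ⟨hne, h⟩
  have hdeg : ∀ c, ∀ v ∈ Z c, (dg H (Z c) v : ℝ) ≤ (2 * k - 1) * D' := by
    intro c v hv
    have hsub : ((Z c).filter fun u => H.Adj v u) ⊆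
        ((out v).biUnion fun h => (Z c).filter fun u => h ∈ out u) ∪
          ((Z c).filter fun y => F v y) := by
      intro u hu
      rw [Finset.mem_filter] at hu
      rcases hadj c v hv u hu.1 hu.2 with ⟨h, h1, h2⟩ | h
      · exact Finset.mem_union_left _ (Finset.mem_biUnion.2 ⟨h, h1, Finset.mem_filter.2 ⟨hu.1, h2⟩⟩)
      · exact Finset.mem_union_right _ (Finset.mem_filter.2 ⟨hu.1, h⟩)
    have h1 : dg H (Z c) v ≤ k * D' + (k - 1) * D' := by
      unfold dg
      refine (Finset.card_le_card hsub).trans ((Finset.card_union_le _ _).trans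
        (add_le_add ?_ (hFc c v)))
      refine Finset.card_biUnion_le.trans ?_
      calc ∑ h ∈ out v, ((Z c).filter fun u => h ∈ out u).card ≤ ∑ _h ∈ out v, D' :=
            Finset.sum_le_sum fun h _ => hhub c h
        _ = (out v).card * D' := by rw [Finset.sum_const, smul_eq_mul]
        _ ≤ k * D' := Nat.mul_le_mul_right _ (O.card_out v)
    have h2 : (dg H (Z c) v : ℝ) ≤ ((k * D' + (k - 1) * D' : ℕ) : ℝ) := by exact_mod_cast h1
    rw [Nat.cast_add, Nat.cast_mul, Nat.cast_mul, hkc] at h2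
    linarith
  -- the number of colours of a class
  set a : ℝ := 2 * k - 3 / 2 + η' with ha
  have ha0 : 0 < a := by rw [ha]; linarith
  have ha1 : a ≤ 2 * k := by rw [ha]; linarith
  set T : ℕ := ⌈a * D'⌉₊ with hT
  have hT1 : a * D' ≤ T := Nat.le_ceil _
  have hT2 : (T : ℝ) < a * D' + 1 := Nat.ceil_lt_add_one (by positivity)
  have hT3 : (T : ℝ) ≤ 3 * k * D' := by nlinarith
  have hcls : ∀ c, ∃ f : V → Fin T, Proper H (Z c) f := by
    intro c
    refine hD1 D' ((le_max_left _ _).trans hmax) T hT1 hT3 V H (Z c) (hdeg c) ?_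
    intro W hW hWc
    refine hD2 D' ((le_max_right _ _).trans hmax) V W out H F (fun x _ => O.card_out x) ?_ ?_ ?_ hWc
    · intro h
      exact (Finset.card_le_card (Finset.filter_subset_filter _ hW)).trans (hhub c h)
    · intro x _
      exact (Finset.card_le_card (Finset.filter_subset_filter _ hW)).trans (hFc c x)
    · intro x hx y hy hxy
      exact hadj c x (hW hx) y (hW hy) hxy
  choose fc hfc using hcls
  -- the exceptional set
  set m : ℕ := ⌊η1 * D + 2 * (k + k ^ 2 : ℝ)⌋₊ with hm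
  have hm1 : (m : ℝ) ≤ η1 * D + 2 * (k + k ^ 2 : ℝ) := Nat.floor_le (by positivity)
  obtain ⟨fY, hfY⟩ := degenerate_colour H m Y (exceptional_degenerate O H hH Y (η1 * D) hβ4) Y
    (Finset.Subset.refl Y)
  refine ⟨M * T + (m + 1), ?_, glue_classes H β Y fY hfY fc hfc⟩
  push_cast
  have e1 : (M : ℝ) * T ≤ a * (M * D') + M := by
    have := mul_le_mul_of_nonneg_left hT2.le hMR.le
    linarith
  have e2 : a * (M * (D' : ℝ)) ≤ a * ((1 + η1) * D + M) := mul_le_mul_of_nonneg_left hD'M2 ha0.le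
  have e3 : a * M ≤ 2 * k * M := mul_le_mul_of_nonneg_right ha1 hMR.le
  have e4 : a * η1 ≤ η / 8 := by
    have := mul_le_mul_of_nonneg_right ha1 hη10.le
    linarith
  have e5 : a * η1 * D ≤ η / 8 * D := mul_le_mul_of_nonneg_right e4 hDR0.le
  have e6 : η1 * D ≤ η / 16 * D := mul_le_mul_of_nonneg_right hη1s hDR0.le
  have e7 : a * D ≤ (2 * k - 3 / 2 + η / 4) * D :=
    mul_le_mul_of_nonneg_right (by rw [ha]; linarith) hDR0.le
  have e8 : 0 < η * D := by positivity
  rw [hK0] at hKD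
  nlinarith

/-- The upper bound for all sparse graphs. -/
theorem upper_large_of (hRL : RLStar) (hcolour : ColourRL) (η : ℝ) (hη : 0 < η) :
    ∃ k0 : ℕ, ∀ k : ℕ, k0 ≤ k → ∃ C : ℝ, 0 ≤ C ∧
    ∀ (V : Type) [Fintype V] (G : SimpleGraph V) [DecidableRel G.Adj],
      (∀ H : G.Subgraph, H.edgeSet.ncard ≤ k * H.verts.ncard) →
      ∃ X : ℕ, (square G).Colorable X ∧ (X : ℝ) ≤ (2 * k - 3 / 2 + η) * G.maxDegree + C := by
  classical
  obtain ⟨k0, hk0⟩ := main_large_of hRL hcolour η hη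
  refine ⟨max k0 1, fun k hk => ?_⟩
  obtain ⟨D0, h⟩ := hk0 k ((le_max_left _ _).trans hk)
  have hk1 : 1 ≤ k := (le_max_right _ _).trans hk
  have hk' : (1 : ℝ) ≤ k := by exact_mod_cast hk1
  refine ⟨D0 + D0 * D0 + 1, by positivity, ?_⟩
  intro V _ G _ hG
  obtain ⟨out, h1, h2, h3⟩ := exists_orientation k G hG
  have hpos : 0 ≤ (2 * k - 3 / 2 + η) * (G.maxDegree : ℝ) :=
    mul_nonneg (by linarith) (by positivity)
  rcases le_or_gt D0 G.maxDegree with hD | hD
  · obtain ⟨X, hX, f, hf⟩ := h G.maxDegree hD V out (square G) (ori_of h1 h2 le_rfl)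
      (fun x y hxy => rel_of_square h3 hxy)
    refine ⟨X, colorable_of_proper hf, ?_⟩
    have h5 : (0 : ℝ) ≤ D0 + D0 * D0 + 1 := by positivity
    linarith
  · obtain ⟨f, hf⟩ := greedy (square G) _ (square_trivial G)
    refine ⟨_, colorable_of_proper hf, ?_⟩
    have h4 : G.maxDegree + G.maxDegree * G.maxDegree + 1 ≤ D0 + D0 * D0 + 1 := by
      have := Nat.mul_le_mul hD.le hD.le
      omega
    have h5 : ((G.maxDegree + G.maxDegree * G.maxDegree + 1 : ℕ) : ℝ) ≤
        ((D0 + D0 * D0 + 1 : ℕ) : ℝ) := by exact_mod_cast h4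
    push_cast at h5 ⊢
    linarith

/-- The upper bound for `M_k(D)` and `M'_k(D)`. -/
theorem M_large_of (hRL : RLStar) (hcolour : ColourRL) (η : ℝ) (hη : 0 < η) :
    ∃ k0 : ℕ, ∀ k : ℕ, k0 ≤ k → ∃ C : ℝ, ∀ D : ℕ,
      (M k D : ℝ) ≤ M' k D ∧ (M' k D : ℝ) ≤ (2 * k - 3 / 2 + η) * D + C := by
  classical
  obtain ⟨k0, hk0⟩ := upper_large_of hRL hcolour η hη
  refine ⟨max k0 1, fun k hk => ?_⟩
  obtain ⟨C, hC, h⟩ := hk0 k ((le_max_left _ _).trans hk)
  have hk1 : 1 ≤ k := (le_max_right _ _).trans hk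
  have hk' : (1 : ℝ) ≤ k := by exact_mod_cast hk1
  refine ⟨C, fun D => ⟨by exact_mod_cast M_le_M' k D hk1, ?_⟩⟩
  have hpos : 0 ≤ (2 * k - 3 / 2 + η) * (D : ℝ) := mul_nonneg (by linarith) (by positivity)
  rcases (chromaticSet' k D).eq_empty_or_nonempty with he | hne
  · unfold M'
    rw [he]
    simp only [csSup_empty, bot_eq_zero', Nat.cast_zero]
    linarith
  · have hmem := Nat.sSup_mem hne (chromaticSet'_bdd k D)
    obtain ⟨V, hV, G, hG1, hG2, hG3⟩ := hmem
    obtain ⟨X, hX1, hX2⟩ := h V G (fun H => sparse_of_mad hG2 H)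
    have h4 : (square G).chromaticNumber ≤ X := hX1.chromaticNumber_le
    rw [hG3] at h4
    have h5 : sSup (chromaticSet' k D) ≤ X := by exact_mod_cast h4
    have h6 : ((M' k D : ℕ) : ℝ) ≤ X := by exact_mod_cast h5
    rw [hG1] at hX2
    linarith

end Pool.Agent.Helper32.LK
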