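import Pool.Agent.Helper57.LK.RL
import Pool.Agent.Helper48.LK.T6c
import Pool.Agent.Helper32.LK.Top

/-!
# Squares of sparse graphs for large `k`

The upper bound `(2k - 3/2 + η) D + C`.
-/

set_option autoImplicit false
set_option linter.unusedSectionVars false

namespace Pool.Agent.Helper32.LK

open Pool.Agent.Helper14.Square Pool.Agent.Helper32.Sq

/-- The theorem for orientations. -/
theorem main_large (η : ℝ) (hη : 0 < η) : ∃ k0 : ℕ, ∀ k : ℕ, k0 ≤ k →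
    ∃ D0 : ℕ, ∀ D : ℕ, D0 ≤ D → ∀ (V : Type) [Fintype V] [DecidableEq V]
      (out : V → Finset V) (H : SimpleGraph V) [DecidableRel H.Adj], Ori k D out →
      (∀ x y, H.Adj x y → Rel out x y) →
      ∃ X : ℕ, (X : ℝ) ≤ (2 * k - 3 / 2 + η) * D ∧
        ∃ f : V → Fin X, Proper H Finset.univ f :=
  main_large_of Pool.Agent.Helper57.LK.rlstar Pool.Agent.Helper48.LK.colour_RL η hη

/-- The upper bound for `M_k(D)` and `M'_k(D)`. -/
theorem M_large (η : ℝ) (hη : 0 < η) : ∃ k0 : ℕ, ∀ k : ℕ, k0 ≤ k → ∃ C : ℝ, ∀ D : ℕ,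
    (M k D : ℝ) ≤ M' k D ∧ (M' k D : ℝ) ≤ (2 * k - 3 / 2 + η) * D + C :=
  M_large_of Pool.Agent.Helper57.LK.rlstar Pool.Agent.Helper48.LK.colour_RL η hη

end Pool.Agent.Helper32.LK
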