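import Pool.Agent.Helper32.LK.PartA

/-!
# The random partial colouring lemma with block events: the theorem
-/

set_option autoImplicit false
set_option linter.unusedSectionVars false
set_option linter.style.haveILetI false

namespace Pool.Agent.Helper32.LK

open Pool.Agent.Helper32.Sq Pool.Agent.Helper48.LK

set_option maxHeartbeats 4000000 in
open Classical Filter in
theorem exists_partialB (K c δ κ lam ε : ℝ) (hK : 1 ≤ K) (hc : 0 < c) (hδ : 0 < δ) (hκ : 0 < κ)
    (hκ1 : κ ≤ 1 / 2) (hlam : 0 < lam) (hε : 0 < ε) (hle : 16 * lam ^ 2 ≤ κ * ε) :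
    ∃ D0 : ℕ, ∀ D : ℕ, D0 ≤ D → ∀ X : ℕ, D ≤ X → (X : ℝ) ≤ K * D →
      ∀ (V : Type) [Fintype V] [DecidableEq V] (H : SimpleGraph V) [DecidableRel H.Adj]
        (Z Low Mid : Finset V) (B R : V → Finset V),
        (∀ v, (dg H Finset.univ v : ℝ) ≤ K * D) →
        (∀ v ∈ Low, c * (D : ℝ) ^ 2 ≤ (nad H (nbr H Z v) : ℝ)) →
        (∀ v ∈ Mid, B v ⊆ insert v (nbr H Z v) ∧ (B v).Nonempty) →
        (∀ v ∈ Mid, ∀ w ∈ Z, w ∉ B v → w ∉ R v →
          (dg H (B v) w : ℝ) ≤ (1 - κ) * (B v).card) →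
        (∀ v ∈ Mid, ∑ w ∈ Z \ (B v ∪ R v), (dg H (B v) w : ℝ) ≤ lam * D * (B v).card) →
        ∃ (F : Finset V) (f : V → Fin X), F ⊆ Z ∧ Proper H F f ∧
          (∀ v, (dg H F v : ℝ) ≤ δ * D) ∧
          (∀ v ∈ Low, (((F.filter fun u => H.Adj v u).image f).card : ℝ) +
            c / (32 * K * (pm K δ : ℝ) ^ 2) * D ≤ (dg H F v : ℝ)) ∧
          (∀ v ∈ Mid, (((Finset.univ : Finset (Fin X)).filter fun γ =>
            (1 - κ / 2) * ((B v).card : ℝ) < (((B v).filter fun u =>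
              ∃ w ∈ F, w ∉ B v ∧ w ∉ R v ∧ H.Adj u w ∧ f w = γ).card : ℝ)).card : ℝ) ≤ ε * D) := by
  have hK0 : 0 < K := by linarith
  set m : ℕ := pm K δ with hm
  have hm1 : 16 * K + 2 * K / δ ≤ m := Nat.le_ceil _
  have hKδ : 0 < 2 * K / δ := by positivity
  have hm2 : 16 * K ≤ m := by linarith
  have hm3 : 2 * K / δ ≤ m := by linarith
  have hm0 : (0 : ℝ) < m := by linarith
  have hmpos : 0 < m := by exact_mod_cast hm0
  set a0 : ℝ := c / (16 * K * m ^ 2) with ha0
  have ha0pos : 0 < a0 := by positivity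
  set C : ℝ := 1 / (80 * K ^ 4) with hC
  have hC0 : 0 < C := by positivity
  have hev : ∀ᶠ D : ℕ in atTop, 0 < D ∧
      (D : ℝ) ^ 4 * Real.exp (-((δ ^ 2 / (8 * K)) * D)) < C ∧
      (D : ℝ) ^ 4 * Real.exp (-((a0 ^ 2 / (8 * K)) * D)) < C ∧
      (D : ℝ) ^ 4 * Real.exp (-((a0 / 4) * D)) < C ∧
      (D : ℝ) ^ 4 * Real.exp (-((ε ^ 2 * κ ^ 2 / (128 * lam)) * D)) < C := by
    filter_upwards [eventually_gt_atTop 0, evt_exp (δ ^ 2 / (8 * K)) C (by positivity) hC0,
      evt_exp (a0 ^ 2 / (8 * K)) C (by positivity) hC0,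
      evt_exp (a0 / 4) C (by positivity) hC0,
      evt_exp (ε ^ 2 * κ ^ 2 / (128 * lam)) C (by positivity) hC0] with D h1 h2 h3 h4 h5
    exact ⟨h1, h2, h3, h4, h5⟩
  obtain ⟨D0, hD0⟩ := eventually_atTop.1 hev
  refine ⟨D0, fun D hD X hDX hXK V _ _ H _ Z Low Mid Bl R hdeg hlow hB hBw hBs => ?_⟩
  obtain ⟨hDpos, e1, e2, e3, e4⟩ := hD0 D hD
  have hD' : (0 : ℝ) < D := by exact_mod_cast hDpos
  have hD1 : (1 : ℝ) ≤ D := by exact_mod_cast hDpos
  have hX : 0 < X := lt_of_lt_of_le hDpos hDX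
  have hX' : (0 : ℝ) < X := by exact_mod_cast hX
  have hDX' : (D : ℝ) ≤ X := by exact_mod_cast hDX
  set Ω := V → Fin X × Fin m with hΩ
  haveI : Nonempty (Fin X × Fin m) := ⟨(⟨0, hX⟩, ⟨0, hmpos⟩)⟩
  have hΩpos : (0 : ℝ) < Fintype.card Ω := by exact_mod_cast Fintype.card_pos
  set φ : V → Fin X := fun _ => ⟨0, hX⟩ with hφ
  set b : ℝ := K * D with hb
  have hb0 : 0 < b := by positivity
  set B : ℕ := ⌊b⌋₊ with hBdef
  have hBb : (B : ℝ) ≤ b := Nat.floor_le hb0.le
  have hnbrZ : ∀ v, ((nbr H Z v).card : ℝ) ≤ b := by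
    intro v
    refine le_trans ?_ (hdeg v)
    exact_mod_cast dg_mono H (Finset.subset_univ Z) v
  have hnbr' : ∀ z ∈ (Finset.univ : Finset V), (nbr H Finset.univ z).card ≤ B :=
    fun z _ => Nat.le_floor (hdeg z)
  set FP : V → Finset (V × V) := fun v => ((nbr H Z v) ×ˢ (nbr H Z v)).filter fun p : V × V =>
    p.1 ≠ p.2 ∧ ¬ H.Adj p.1 p.2 with hFP
  set a : ℝ := a0 * D with ha
  have ha0' : 0 < a := by positivity
  set wt : V → V → ℝ := fun v w => (dg H (Bl v) w : ℝ) / (Bl v).card with hwt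
  set E1 : V → Ω → Prop := fun v ω =>
    δ * D < (((nbr H Z v).filter fun u => ((ω u).2 : ℕ) = 0).card : ℝ) with hE1
  set E2 : V → Ω → Prop := fun v ω =>
    (((Fs H Z ∅ φ ω).filter fun u => H.Adj v u).card : ℝ) <
        ((((Fs H Z ∅ φ ω).filter fun u => H.Adj v u).image fun z => (ω z).1).card : ℝ) +
          a / 2 with hE2
  set E3 : V → Ω → Prop := fun v ω => ε * D < Ph κ (Z \ (Bl v ∪ R v)) (wt v) ω with hE3
  set A : V → Finset Ω := fun v => Finset.univ.filter fun ω =>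
    E1 v ω ∨ (v ∈ Low ∧ E2 v ω) ∨ (v ∈ Mid ∧ E3 v ω) with hA
  set q1 : ℝ := Real.exp (-(δ * D / 2) ^ 2 / (2 * b)) with hq1
  set q2 : ℝ := Real.exp (-a ^ 2 / (8 * b)) + Real.exp (-a / 4) with hq2
  set q3 : ℝ := Real.exp (-(ε * D / 2) ^ 2 / (2 * (16 / κ ^ 2 * (lam * D)))) with hq3
  have hq1pos : 0 < q1 := Real.exp_pos _
  have hq2pos : 0 < q2 := by positivity
  have hq3pos : 0 < q3 := Real.exp_pos _
  have hbm1 : b / m ≤ δ * D / 2 := by
    rw [div_le_iff₀ hm0]
    have h1 : 2 * K ≤ m * δ := by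
      rw [div_le_iff₀ hδ] at hm3
      exact hm3
    have h2 : 2 * K * D ≤ m * δ * D := mul_le_mul_of_nonneg_right h1 hD'.le
    rw [hb]
    linarith
  have hbm2 : 4 * b / (X * m) ≤ 1 / 4 := by
    rw [div_le_div_iff₀ (by positivity) (by norm_num)]
    have h1 : 16 * K * D ≤ m * X := by
      calc 16 * K * D ≤ m * D := mul_le_mul_of_nonneg_right hm2 hD'.le
        _ ≤ m * X := mul_le_mul_of_nonneg_left hDX' hm0.le
    rw [hb]
    linarith
  have hbm3 : b ≤ X * m / 2 := by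
    have h1 : 16 * K * D ≤ m * X := by
      calc 16 * K * D ≤ m * D := mul_le_mul_of_nonneg_right hm2 hD'.le
        _ ≤ m * X := mul_le_mul_of_nonneg_left hDX' hm0.le
    have h2 : 0 < K * D := by positivity
    rw [hb]
    linarith
  have hmean3 : 4 / κ * ((lam * D) ^ 2 / (X * m ^ 2)) ≤ ε * D / 2 := by
    have hm16 : (1 : ℝ) ≤ m := by linarith
    have h1 : (lam * D) ^ 2 / (X * m ^ 2) ≤ lam ^ 2 * D := by
      rw [div_le_iff₀ (by positivity)]
      have h2 : (D : ℝ) * 1 ≤ X * m ^ 2 :=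
        mul_le_mul hDX' (one_le_pow₀ hm16) (by norm_num) hX'.le
      calc (lam * D) ^ 2 = lam ^ 2 * D * (D * 1) := by ring
        _ ≤ lam ^ 2 * D * (X * m ^ 2) := mul_le_mul_of_nonneg_left h2 (by positivity)
    calc 4 / κ * ((lam * D) ^ 2 / (X * m ^ 2)) ≤ 4 / κ * (lam ^ 2 * D) :=
          mul_le_mul_of_nonneg_left h1 (by positivity)
      _ = (16 * lam ^ 2) * (D / (4 * κ)) := by field_simp; ring
      _ ≤ (κ * ε) * (D / (4 * κ)) := mul_le_mul_of_nonneg_right hle (by positivity)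
      _ = ε * D / 4 := by field_simp
      _ ≤ _ := by
        have : 0 < ε * D := by positivity
        linarith
  -- the probabilities
  have hP1 : ∀ v, ((Finset.univ.filter fun ω => E1 v ω).card : ℝ) ≤ Fintype.card Ω * q1 :=
    fun v => bad_one (V := V) (X := X) (m := m) hX hmpos (nbr H Z v) (δ * D) b
      (by positivity) hb0 (hnbrZ v) hbm1
  have hP2 : ∀ v ∈ Low, ((Finset.univ.filter fun ω => E2 v ω).card : ℝ) ≤
      Fintype.card Ω * q2 := by
    intro v hvL
    have hf : c * (D : ℝ) ^ 2 ≤ ((FP v).card : ℝ) := hlow v hvL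
    have hFPv : ∀ p ∈ FP v, p.1 ∈ nbr H Z v ∧ p.2 ∈ nbr H Z v ∧ p.1 ≠ p.2 ∧
        4 * ((∅ : Finset V).filter fun s => H.Adj p.1 s).card ≤ X ∧
        4 * ((∅ : Finset V).filter fun s => H.Adj p.2 s).card ≤ X := by
      intro p hp
      rw [hFP, Finset.mem_filter, Finset.mem_product] at hp
      obtain ⟨⟨g1, g2⟩, g3, g4⟩ := hp
      refine ⟨g1, g2, g3, ?_, ?_⟩ <;> simp
    have hFPv' : ∀ p ∈ FP v, p.1 ≠ p.2 ∧ ¬ H.Adj p.1 p.2 := by
      intro p hp
      rw [hFP, Finset.mem_filter] at hp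
      exact hp.2
    have hne : (nbr H Z v).Nonempty := by
      have h2 : (0 : ℝ) < ((FP v).card : ℝ) := lt_of_lt_of_le (by positivity) hf
      have h3 : 0 < (FP v).card := by exact_mod_cast h2
      obtain ⟨p, hp⟩ := Finset.card_pos.1 h3
      exact ⟨p.1, (hFPv p hp).1⟩
    have hmean : 2 * a * Fintype.card Ω ≤
        ∑ ω : Ω, ((gam H ∅ φ (FP v) (nbr H Z v) ω).card : ℝ) := by
      have h2 := sum_gam_ge (m := m) H hX hmpos (nbr H Z v) ((hnbrZ v).trans hbm3) ∅ φ (FP v) hFPv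
      refine le_trans ?_ h2
      apply mul_le_mul_of_nonneg_right _ hΩpos.le
      rw [le_div_iff₀ (by positivity)]
      have h3 : 2 * a * (8 * X * m ^ 2) = c / K * D * X := by
        rw [ha, ha0]
        field_simp
        ring
      rw [h3]
      calc c / K * D * X ≤ c / K * D * (K * D) := by
            apply mul_le_mul_of_nonneg_left hXK (by positivity)
        _ = c * D ^ 2 := by field_simp
        _ ≤ _ := hf
    exact bad_two' (X := X) (m := m) H hX hmpos Z ∅ φ (FP v) v hFPv' a b ha0' hb0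
      (fun z _ => hnbrZ z) (hnbrZ v) hne hbm2 hmean
  have hP3 : ∀ v ∈ Mid, ((Finset.univ.filter fun ω => E3 v ω).card : ℝ) ≤
      Fintype.card Ω * q3 := by
    intro v hv
    have hBc : (0 : ℝ) < (Bl v).card := by exact_mod_cast (hB v hv).2.card_pos
    refine bad_three hκ hκ1 hX hmpos (Z \ (Bl v ∪ R v)) (wt v) (fun w _ => ?_) (fun w hw => ?_)
      (lam * D) (ε * D) (by positivity) ?_ (by positivity) hmean3
    · simp only [hwt]
      positivity
    · rw [Finset.mem_sdiff, Finset.mem_union, not_or] at hw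
      simp only [hwt]
      rw [div_le_iff₀ hBc]
      exact hBw v hv w hw.1 hw.2.1 hw.2.2
    · simp only [hwt]
      rw [← Finset.sum_div, div_le_iff₀ hBc]
      exact hBs v hv
  have hP : ∀ v, ((A v).card : ℝ) ≤ (q1 + q2 + q3) * Fintype.card Ω := by
    intro v
    have h3 : A v ⊆ (Finset.univ.filter fun ω => E1 v ω) ∪
        ((Finset.univ.filter fun ω => v ∈ Low ∧ E2 v ω) ∪
          (Finset.univ.filter fun ω => v ∈ Mid ∧ E3 v ω)) := by
      intro ω hω
      rw [hA, Finset.mem_filter] at hω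
      rw [Finset.mem_union, Finset.mem_union, Finset.mem_filter, Finset.mem_filter,
        Finset.mem_filter]
      rcases hω.2 with h | h | h
      · exact Or.inl ⟨Finset.mem_univ _, h⟩
      · exact Or.inr (Or.inl ⟨Finset.mem_univ _, h⟩)
      · exact Or.inr (Or.inr ⟨Finset.mem_univ _, h⟩)
    have h4 : ((A v).card : ℝ) ≤ ((Finset.univ.filter fun ω => E1 v ω).card : ℝ) +
        (((Finset.univ.filter fun ω => v ∈ Low ∧ E2 v ω).card : ℝ) +
          ((Finset.univ.filter fun ω => v ∈ Mid ∧ E3 v ω).card : ℝ)) := by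
      exact_mod_cast (Finset.card_le_card h3).trans ((Finset.card_union_le _ _).trans
        (Nat.add_le_add_left (Finset.card_union_le _ _) _))
    have h5 : ((Finset.univ.filter fun ω => v ∈ Low ∧ E2 v ω).card : ℝ) ≤
        Fintype.card Ω * q2 := by
      by_cases hv : v ∈ Low
      · simpa [hv] using hP2 v hv
      · simp only [hv, false_and, Finset.filter_false, Finset.card_empty, Nat.cast_zero]
        positivity
    have h6 : ((Finset.univ.filter fun ω => v ∈ Mid ∧ E3 v ω).card : ℝ) ≤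
        Fintype.card Ω * q3 := by
      by_cases hv : v ∈ Mid
      · simpa [hv] using hP3 v hv
      · simp only [hv, false_and, Finset.filter_false, Finset.card_empty, Nat.cast_zero]
        positivity
    have h7 := hP1 v
    linarith
  -- dependence
  have hDep : ∀ v, DepOn (Tv H Finset.univ v) (A v) := by
    intro v ω ω' h hω
    rw [hA, Finset.mem_filter] at hω ⊢
    obtain ⟨-, hω⟩ := hω
    refine ⟨Finset.mem_univ _, ?_⟩
    have hN : ∀ u, H.Adj v u → ω u = ω' u := fun u hu => h u (mem_T1 H hu)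
    rcases hω with hω | ⟨hvL, hω⟩ | ⟨hvM, hω⟩
    · left
      rw [hE1] at hω ⊢
      have h1 : ((nbr H Z v).filter fun u => ((ω u).2 : ℕ) = 0) =
          (nbr H Z v).filter fun u => ((ω' u).2 : ℕ) = 0 := by
        apply Finset.filter_congr
        intro u hu
        rw [hN u (Finset.mem_filter.1 hu).2]
      simp only at hω ⊢
      rw [← h1]
      exact hω
    · right; left
      refine ⟨hvL, ?_⟩
      rw [hE2] at hω ⊢
      simp only at hω ⊢
      rw [← Fs_congr' H Z ∅ φ h]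
      have h1 : ((Fs H Z ∅ φ ω).filter fun u => H.Adj v u).image (fun z => (ω' z).1) =
          ((Fs H Z ∅ φ ω).filter fun u => H.Adj v u).image (fun z => (ω z).1) := by
        apply Finset.image_congr
        intro z hz
        rw [Finset.mem_coe, Finset.mem_filter] at hz
        have := hN z hz.2
        simp only [this]
      rw [h1]
      exact hω
    · right; right
      refine ⟨hvM, ?_⟩
      rw [hE3] at hω ⊢
      simp only at hω ⊢
      rw [← Ph_congr (ω := ω) (ω' := ω')]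
      · exact hω
      · intro w hw
        by_cases hw0 : (Bl v).filter (fun u => H.Adj w u) = ∅
        · left
          simp only [hwt, dg, hw0, Finset.card_empty, Nat.cast_zero, zero_div]
        · right
          obtain ⟨u, hu⟩ := Finset.nonempty_iff_ne_empty.2 hw0
          rw [Finset.mem_filter] at hu
          have hu' := (hB v hvM).1 hu.1
          rw [Finset.mem_insert] at hu'
          rcases hu' with rfl | hu'
          · exact hN w hu.2.symm
          · exact h w (mem_T2 H (Finset.mem_filter.1 hu').2 hu.2.symm)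
  -- the local lemma
  have hBB : ((((B + B * B) * (B + B * B) : ℕ) : ℝ) + 1) ≤ 5 * K ^ 4 * D ^ 4 := by
    have h1 : (1 : ℝ) ≤ b := by
      rw [hb]
      nlinarith
    have h2 : ((B + B * B : ℕ) : ℝ) ≤ 2 * b ^ 2 := by
      push_cast
      have h3 : (B : ℝ) * B ≤ b * b := mul_le_mul hBb hBb (by positivity) hb0.le
      nlinarith
    have h3 : (((B + B * B) * (B + B * B) : ℕ) : ℝ) ≤ (2 * b ^ 2) * (2 * b ^ 2) := by
      rw [Nat.cast_mul]
      exact mul_le_mul h2 h2 (by positivity) (by positivity)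
    have h4 : (1 : ℝ) ≤ b ^ 4 := one_le_pow₀ h1
    have h5 : b ^ 4 = K ^ 4 * D ^ 4 := by rw [hb]; ring
    have h6 : (2 * b ^ 2) * (2 * b ^ 2) = 4 * b ^ 4 := by ring
    rw [h6] at h3
    calc ((((B + B * B) * (B + B * B) : ℕ) : ℝ) + 1) ≤ 4 * b ^ 4 + b ^ 4 := by linarith
      _ = 5 * K ^ 4 * D ^ 4 := by rw [h5]; ring
  have hq : 4 * (q1 + q2 + q3) * ((((B + B * B) * (B + B * B) : ℕ) : ℝ) + 1) ≤ 1 := by
    have g1 : q1 = Real.exp (-((δ ^ 2 / (8 * K)) * D)) := by
      rw [hq1]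
      congr 1
      rw [hb]
      field_simp
      ring
    have g2 : Real.exp (-a ^ 2 / (8 * b)) = Real.exp (-((a0 ^ 2 / (8 * K)) * D)) := by
      congr 1
      rw [hb, ha]
      field_simp
    have g3 : Real.exp (-a / 4) = Real.exp (-((a0 / 4) * D)) := by
      congr 1
      rw [ha]
      ring
    have g4 : q3 = Real.exp (-((ε ^ 2 * κ ^ 2 / (128 * lam)) * D)) := by
      rw [hq3]
      congr 1
      field_simp
      ring
    have g5 : (D : ℝ) ^ 4 * (q1 + q2 + q3) ≤ 4 * C := by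
      rw [hq2, g1, g2, g3, g4]
      linarith
    calc 4 * (q1 + q2 + q3) * ((((B + B * B) * (B + B * B) : ℕ) : ℝ) + 1)
        ≤ 4 * (q1 + q2 + q3) * (5 * K ^ 4 * D ^ 4) :=
          mul_le_mul_of_nonneg_left hBB (by positivity)
      _ = 20 * K ^ 4 * ((D : ℝ) ^ 4 * (q1 + q2 + q3)) := by ring
      _ ≤ 20 * K ^ 4 * (4 * C) := mul_le_mul_of_nonneg_left g5 (by positivity)
      _ = 1 := by rw [hC]; field_simp; norm_num
  obtain ⟨ω, hω⟩ := lll (ι := V) (α := Fin X × Fin m) A (Tv H Finset.univ) hDep (q1 + q2 + q3)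
    ((B + B * B) * (B + B * B)) (by positivity) hP (card_dep H hnbr') hq
  have hω' : ∀ v, ¬ E1 v ω ∧ (v ∈ Low → ¬ E2 v ω) ∧ (v ∈ Mid → ¬ E3 v ω) := by
    intro v
    have h1 := hω v
    rw [hA, Finset.mem_filter] at h1
    refine ⟨fun h => h1 ⟨Finset.mem_univ _, Or.inl h⟩,
      fun hv h => h1 ⟨Finset.mem_univ _, Or.inr (Or.inl ⟨hv, h⟩)⟩,
      fun hv h => h1 ⟨Finset.mem_univ _, Or.inr (Or.inr ⟨hv, h⟩)⟩⟩
  refine ⟨Fs H Z ∅ φ ω, fun z => (ω z).1, Finset.filter_subset _ _, ?_, ?_, ?_, ?_⟩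
  · intro x hx y hy hxy
    rw [Fs, Finset.mem_filter] at hx hy
    exact (hx.2.2.2 y hy.1 hxy hy.2.1).symm
  · intro v
    have h1 := (hω' v).1
    rw [hE1] at h1
    simp only [not_lt] at h1
    refine le_trans ?_ h1
    have h2 : (Fs H Z ∅ φ ω).filter (fun u => H.Adj v u) ⊆
        (nbr H Z v).filter fun u => ((ω u).2 : ℕ) = 0 := by
      intro u hu
      rw [Finset.mem_filter, Fs, Finset.mem_filter] at hu
      exact Finset.mem_filter.2 ⟨Finset.mem_filter.2 ⟨hu.1.1, hu.2⟩, hu.1.2.1⟩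
    exact_mod_cast Finset.card_le_card h2
  · intro v hv
    have h1 := (hω' v).2.1 hv
    rw [hE2] at h1
    simp only [not_lt] at h1
    have h2 : a / 2 = c / (32 * K * (m : ℝ) ^ 2) * D := by
      rw [ha, ha0]
      field_simp
      ring
    rw [h2] at h1
    exact h1
  · intro v hv
    have h1 := (hω' v).2.2 hv
    rw [hE3] at h1
    simp only [not_lt] at h1
    refine le_trans ?_ h1
    refine blocked_le H hκ Z (Bl v) (R v) (Fs H Z ∅ φ ω) (hB v hv).2 ω ?_
    intro w hw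
    rw [Fs, Finset.mem_filter] at hw
    exact ⟨hw.1, hw.2.1⟩

end Pool.Agent.Helper32.LK
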