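import Pool.Agent.Helper32.LK.Block
import Pool.Agent.Helper32.Sq.Part
import Pool.Agent.Helper48.LK.Defs

/-!
# The random partial colouring lemma with block events
-/

set_option autoImplicit false
set_option linter.unusedSectionVars false
set_option linter.style.haveILetI false

namespace Pool.Agent.Helper32.LK

open Pool.Agent.Helper32.Sq Pool.Agent.Helper48.LK

section

variable {V : Type} [Fintype V] [DecidableEq V] (H : SimpleGraph V) [DecidableRel H.Adj]
variable {X m : ℕ}

/-- The savings are large. -/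
lemma bad_two' (hX : 0 < X) (hm : 0 < m) (Z S : Finset V) (φ : V → Fin X) (FP : Finset (V × V))
    (v : V) (hFP : ∀ p ∈ FP, p.1 ≠ p.2 ∧ ¬ H.Adj p.1 p.2) (a b : ℝ) (ha : 0 < a) (hb0 : 0 < b)
    (hb : ∀ z ∈ Z, ((nbr H Z z).card : ℝ) ≤ b) (hv : ((nbr H Z v).card : ℝ) ≤ b) (hne : (nbr H Z v).Nonempty)
    (hbm : 4 * b / (X * m) ≤ 1 / 4)
    (hmean : 2 * a * Fintype.card (V → Fin X × Fin m) ≤
      ∑ ω : V → Fin X × Fin m, ((gam H S φ FP (nbr H Z v) ω).card : ℝ)) :
    (((Finset.univ : Finset (V → Fin X × Fin m)).filter fun ω =>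
      (((Fs H Z S φ ω).filter fun u => H.Adj v u).card : ℝ) <
        ((((Fs H Z S φ ω).filter fun u => H.Adj v u).image fun z => (ω z).1).card : ℝ) +
          a / 2).card : ℝ) ≤
      Fintype.card (V → Fin X × Fin m) * (Real.exp (-a ^ 2 / (8 * b)) + Real.exp (-a / 4)) := by
  classical
  haveI : Nonempty (Fin X × Fin m) := ⟨(⟨0, hX⟩, ⟨0, hm⟩)⟩
  set Ω := V → Fin X × Fin m with hΩ
  set N := nbr H Z v with hN
  set B1 := (Finset.univ : Finset Ω).filter fun ω => ((gam H S φ FP N ω).card : ℝ) ≤ a with hB1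
  set B2 := (Finset.univ : Finset Ω).filter fun ω => a ≤ ((gam H S φ FP N ω).card : ℝ) ∧
    ((gam H S φ FP N ω).card : ℝ) / 2 ≤ ((spl H Z S φ FP N ω ω).card : ℝ) with hB2
  have hNZ : N ⊆ Z := Finset.filter_subset _ _
  have hsub : ((Finset.univ : Finset Ω).filter fun ω =>
      (((Fs H Z S φ ω).filter fun u => H.Adj v u).card : ℝ) <
        ((((Fs H Z S φ ω).filter fun u => H.Adj v u).image fun z => (ω z).1).card : ℝ) +
          a / 2) ⊆ B1 ∪ B2 := by
    intro ω hω
    rw [Finset.mem_filter] at hω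
    rw [Finset.mem_union]
    by_contra hcon
    rw [not_or, hB1, hB2, Finset.mem_filter, Finset.mem_filter] at hcon
    obtain ⟨h1, h2⟩ := hcon
    have h3 : a < ((gam H S φ FP N ω).card : ℝ) := by
      by_contra h
      exact h1 ⟨Finset.mem_univ _, not_lt.1 h⟩
    have h4 : ((spl H Z S φ FP N ω ω).card : ℝ) < ((gam H S φ FP N ω).card : ℝ) / 2 := by
      by_contra h
      exact h2 ⟨Finset.mem_univ _, h3.le, not_lt.1 h⟩
    have h5 := savings H Z S φ FP v ω hFP
    have h6 : ((((Fs H Z S φ ω).filter fun u => H.Adj v u).image fun z => (ω z).1).card : ℝ) +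
      ((gam H S φ FP N ω).card : ℝ) ≤
      (((Fs H Z S φ ω).filter fun u => H.Adj v u).card : ℝ) +
      ((spl H Z S φ FP N ω ω).card : ℝ) := by exact_mod_cast h5
    linarith [hω.2]
  have hΩpos : (0 : ℝ) < Fintype.card Ω := by exact_mod_cast Fintype.card_pos
  have hc1 : (B1.card : ℝ) ≤ Fintype.card Ω * Real.exp (-a ^ 2 / (8 * b)) := by
    have h1 := mcd (ι := V) (α := Fin X × Fin m) N hne
      (fun ω => (((gam H S φ FP N ω).card : ℝ) - a) / 2)
      (by
        intro ω ω' h
        simp only [gam_congr H h])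
      (by
        intro i ω ω' h
        have h2 := gam_lip (S := S) (φ := φ) (FP := FP) (N := N) H i h
        have h3 := gam_lip (S := S) (φ := φ) (FP := FP) (N := N) H i
          (fun j hj => (h j hj).symm)
        have h2' : ((gam H S φ FP N ω).card : ℝ) ≤ (gam H S φ FP N ω').card + 2 := by
          exact_mod_cast h2
        have h3' : ((gam H S φ FP N ω').card : ℝ) ≤ (gam H S φ FP N ω).card + 2 := by
          exact_mod_cast h3
        rw [abs_le]
        constructor <;> linarith)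
      (a / 2) (by positivity)
      (by
        rw [← Finset.sum_div, Finset.sum_sub_distrib, Finset.sum_const, Finset.card_univ,
          nsmul_eq_mul]
        have h4 : a / 2 * (Fintype.card Ω : ℝ) =
          (2 * a * Fintype.card Ω - Fintype.card Ω * a) / 2 := by ring
        rw [h4]
        apply div_le_div_of_nonneg_right _ (by norm_num)
        linarith)
      B1
      (by
        intro ω hω
        rw [hB1, Finset.mem_filter] at hω
        have := hω.2
        show (((gam H S φ FP N ω).card : ℝ) - a) / 2 ≤ 0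
        linarith)
    refine h1.trans (mul_le_mul_of_nonneg_left (Real.exp_le_exp.2 ?_) hΩpos.le)
    have hN0 : (0 : ℝ) < N.card := Nat.cast_pos.2 hne.card_pos
    have hNb : (N.card : ℝ) ≤ b := hv
    rw [div_le_div_iff₀ (by linarith) (by linarith)]
    have h2 : 0 ≤ a ^ 2 := sq_nonneg _
    nlinarith
  have hc2 : (B2.card : ℝ) ≤ Fintype.card Ω * Real.exp (-a / 4) := by
    have h1 := sum_mix N (fun ω : Ω => if ω ∈ B2 then (1 : ℝ) else 0)
    rw [← Finset.sum_filter, Finset.sum_const, nsmul_eq_mul, mul_one,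
      Finset.filter_mem_eq_inter, Finset.univ_inter] at h1
    have h2 : ∀ ω : Ω, ∑ ω' : Ω, (if mix N ω ω' ∈ B2 then (1 : ℝ) else 0) ≤
        Fintype.card Ω * Real.exp (-a / 4) := by
      intro ω
      by_cases h3 : a ≤ ((gam H S φ FP N ω).card : ℝ)
      · have h4 : ∀ ω' : Ω, (if mix N ω ω' ∈ B2 then (1 : ℝ) else 0) ≤
            Real.exp (((spl H Z S φ FP N ω ω').card : ℝ)) *
              Real.exp (-((gam H S φ FP N ω).card : ℝ) / 2) := by
          intro ω'
          by_cases h5 : mix N ω ω' ∈ B2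
          · rw [if_pos h5, ← Real.exp_add]
            rw [hB2, Finset.mem_filter, spl_mix,
              gam_congr H (ω := mix N ω ω') (ω' := ω) (fun z hz => mix_mem hz)] at h5
            apply Real.one_le_exp
            linarith [h5.2.2]
          · rw [if_neg h5]
            positivity
        calc ∑ ω' : Ω, (if mix N ω ω' ∈ B2 then (1 : ℝ) else 0)
            ≤ ∑ ω' : Ω, Real.exp (((spl H Z S φ FP N ω ω').card : ℝ)) *
              Real.exp (-((gam H S φ FP N ω).card : ℝ) / 2) :=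
              Finset.sum_le_sum fun ω' _ => h4 ω'
          _ = (∑ ω' : Ω, Real.exp (((spl H Z S φ FP N ω ω').card : ℝ))) *
              Real.exp (-((gam H S φ FP N ω).card : ℝ) / 2) := by rw [Finset.sum_mul]
          _ ≤ (Fintype.card Ω * Real.exp (4 * b / (X * m) * (gam H S φ FP N ω).card)) *
              Real.exp (-((gam H S φ FP N ω).card : ℝ) / 2) :=
              mul_le_mul_of_nonneg_right
                (sum_exp_spl H hX hm Z S φ FP N ω hNZ b hb (fun p hp => (hFP p hp).1))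
                (Real.exp_pos _).le
          _ = Fintype.card Ω * Real.exp (4 * b / (X * m) * (gam H S φ FP N ω).card +
              -((gam H S φ FP N ω).card : ℝ) / 2) := by rw [Real.exp_add]; ring
          _ ≤ Fintype.card Ω * Real.exp (-a / 4) := by
              apply mul_le_mul_of_nonneg_left (Real.exp_le_exp.2 ?_) hΩpos.le
              have h6 := mul_le_mul_of_nonneg_right hbm
                (show (0 : ℝ) ≤ (gam H S φ FP N ω).card by positivity)
              linarith
      · have h4 : ∀ ω' : Ω, mix N ω ω' ∉ B2 := by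
          intro ω' h5
          rw [hB2, Finset.mem_filter,
              gam_congr H (ω := mix N ω ω') (ω' := ω) (fun z hz => mix_mem hz)] at h5
          exact h3 h5.2.1
        have h5 : ∑ ω' : Ω, (if mix N ω ω' ∈ B2 then (1 : ℝ) else 0) = 0 := by
          apply Finset.sum_eq_zero
          intro ω' _
          rw [if_neg (h4 ω')]
        rw [h5]
        positivity
    have h3 : (Fintype.card Ω : ℝ) * B2.card ≤
        Fintype.card Ω * (Fintype.card Ω * Real.exp (-a / 4)) := by
      rw [← h1]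
      calc _ ≤ ∑ _ω : Ω, (Fintype.card Ω : ℝ) * Real.exp (-a / 4) :=
            Finset.sum_le_sum fun ω _ => h2 ω
        _ = _ := by rw [Finset.sum_const, Finset.card_univ, nsmul_eq_mul]
    exact le_of_mul_le_mul_left h3 hΩpos
  have h1 : (((Finset.univ : Finset Ω).filter fun ω =>
      (((Fs H Z S φ ω).filter fun u => H.Adj v u).card : ℝ) <
        ((((Fs H Z S φ ω).filter fun u => H.Adj v u).image fun z => (ω z).1).card : ℝ) +
          a / 2).card : ℝ) ≤ B1.card + B2.card := by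
    exact_mod_cast (Finset.card_le_card hsub).trans (Finset.card_union_le _ _)
  rw [mul_add]
  linarith


lemma mem_T1 {v u : V} (h : H.Adj v u) : u ∈ Tv H Finset.univ v := by
  rw [Tv, if_pos (Finset.mem_univ _), Finset.mem_union]
  exact Or.inl (Finset.mem_filter.2 ⟨Finset.mem_univ _, h⟩)

lemma mem_T2 {v u w : V} (h : H.Adj v u) (h' : H.Adj u w) : w ∈ Tv H Finset.univ v := by
  rw [Tv, if_pos (Finset.mem_univ _), Finset.mem_union, Finset.mem_biUnion]
  exact Or.inr ⟨u, Finset.mem_filter.2 ⟨Finset.mem_univ _, h⟩,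
    Finset.mem_filter.2 ⟨Finset.mem_univ _, h'⟩⟩

lemma Fs_congr' (Z S : Finset V) (φ : V → Fin X) {ω ω' : V → Fin X × Fin m} {v : V}
    (h : ∀ i ∈ Tv H Finset.univ v, ω i = ω' i) :
    (Fs H Z S φ ω).filter (fun u => H.Adj v u) = (Fs H Z S φ ω').filter (fun u => H.Adj v u) := by
  classical
  have hT : ∀ z, H.Adj v z → ω z = ω' z ∧ ∀ w ∈ Z, H.Adj z w → ω w = ω' w :=
    fun z hvz => ⟨h z (mem_T1 H hvz), fun w _ hzw => h w (mem_T2 H hvz hzw)⟩
  ext z
  rw [Finset.mem_filter, Finset.mem_filter, Fs, Fs, Finset.mem_filter, Finset.mem_filter]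
  constructor
  · rintro ⟨⟨h1, h2, h3, h4⟩, h5⟩
    obtain ⟨g1, g2⟩ := hT z h5
    rw [g1] at h2 h3
    refine ⟨⟨h1, h2, h3, fun w hw hzw hw0 => ?_⟩, h5⟩
    rw [← g2 w hw hzw] at hw0 ⊢
    rw [← g1]
    exact h4 w hw hzw hw0
  · rintro ⟨⟨h1, h2, h3, h4⟩, h5⟩
    obtain ⟨g1, g2⟩ := hT z h5
    rw [← g1] at h2 h3
    refine ⟨⟨h1, h2, h3, fun w hw hzw hw0 => ?_⟩, h5⟩
    rw [g2 w hw hzw] at hw0 ⊢
    rw [g1]
    exact h4 w hw hzw hw0

open Classical in
/-- The blocked colours are heavy. -/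
lemma blocked_le {κ : ℝ} (hκ : 0 < κ) (Z B R F : Finset V) (hB : B.Nonempty)
    (ω : V → Fin X × Fin m) (hF : ∀ w ∈ F, w ∈ Z ∧ ((ω w).2 : ℕ) = 0) :
    (((Finset.univ : Finset (Fin X)).filter fun γ =>
      (1 - κ / 2) * (B.card : ℝ) < ((B.filter fun u =>
        ∃ w ∈ F, w ∉ B ∧ w ∉ R ∧ H.Adj u w ∧ (ω w).1 = γ).card : ℝ)).card : ℝ) ≤
      Ph κ (Z \ (B ∪ R)) (fun w => (dg H B w : ℝ) / B.card) ω := by
  have hB0 : (0 : ℝ) < B.card := by exact_mod_cast hB.card_pos
  rw [Finset.card_filter, Ph]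
  push_cast
  apply Finset.sum_le_sum
  intro γ _
  split_ifs with h1
  · have h2 : (B.filter fun u => ∃ w ∈ F, w ∉ B ∧ w ∉ R ∧ H.Adj u w ∧ (ω w).1 = γ) ⊆
        ((Z \ (B ∪ R)).filter fun w => (ω w).1 = γ ∧ ((ω w).2 : ℕ) = 0).biUnion
          fun w => B.filter fun u => H.Adj w u := by
      intro u hu
      rw [Finset.mem_filter] at hu
      obtain ⟨hu, w, hw, hwB, hwR, huw, hγ⟩ := hu
      rw [Finset.mem_biUnion]
      refine ⟨w, ?_, Finset.mem_filter.2 ⟨hu, huw.symm⟩⟩
      rw [Finset.mem_filter, Finset.mem_sdiff, Finset.mem_union, not_or]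
      exact ⟨⟨(hF w hw).1, hwB, hwR⟩, hγ, (hF w hw).2⟩
    have h3 : ((B.filter fun u => ∃ w ∈ F, w ∉ B ∧ w ∉ R ∧ H.Adj u w ∧ (ω w).1 = γ).card : ℝ) ≤
        ∑ w ∈ (Z \ (B ∪ R)).filter fun w => (ω w).1 = γ ∧ ((ω w).2 : ℕ) = 0, (dg H B w : ℝ) := by
      exact_mod_cast (Finset.card_le_card h2).trans Finset.card_biUnion_le
    have h4 : 1 - κ / 2 < sg (Z \ (B ∪ R)) (fun w => (dg H B w : ℝ) / B.card) ω γ := by
      rw [sg, ← Finset.sum_filter, ← Finset.sum_div, lt_div_iff₀ hB0]
      exact h1.trans_le h3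
    rw [ph]
    refine le_min le_rfl (le_max_of_le_right ?_)
    have h5 : κ / 2 ≤ sg (Z \ (B ∪ R)) (fun w => (dg H B w : ℝ) / B.card) ω γ - (1 - κ) := by
      linarith
    calc (1 : ℝ) = κ / 2 * (2 / κ) := by field_simp
      _ ≤ _ := mul_le_mul_of_nonneg_right h5 (by positivity)
  · exact ph_nonneg _ _

end

end Pool.Agent.Helper32.LK
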