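import Pool.Agent.Helper32.LK.WMcD
import Pool.Agent.Helper48.LK.Defs

/-!
# Random splitting of a family of sets
-/

set_option autoImplicit false
set_option linter.unusedSectionVars false
set_option linter.style.haveILetI false

namespace Pool.Agent.Helper32.LK

open Pool.Agent.Helper32.Sq Pool.Agent.Helper48.LK

open Filter in
lemma evt_exp3 (β C : ℝ) (hβ : 0 < β) (hC : 0 < C) :
    ∀ᶠ D : ℕ in atTop, (D : ℝ) ^ 3 * Real.exp (-(β * D)) < C := by
  have h := (Real.tendsto_pow_mul_exp_neg_atTop_nhds_zero 3).comp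
    ((tendsto_natCast_atTop_atTop (R := ℝ)).const_mul_atTop hβ)
  have h2 := h.eventually_lt_const (show 0 < β ^ 3 * C by positivity)
  filter_upwards [h2] with D hD
  simp only [Function.comp] at hD
  have h3 : β ^ 3 * ((D : ℝ) ^ 3 * Real.exp (-(β * D))) < β ^ 3 * C := by
    calc β ^ 3 * ((D : ℝ) ^ 3 * Real.exp (-(β * D))) = (β * D) ^ 3 * Real.exp (-(β * D)) := by ring
      _ < _ := hD
  exact lt_of_mul_lt_mul_left h3 (by positivity)

section

variable {V : Type} [Fintype V] [DecidableEq V] {M : ℕ}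

lemma sum_class (hM : 0 < M) (A : Finset V) (c : Fin M) :
    ∑ ω : V → Fin M, ((A.filter fun v => ω v = c).card : ℝ) =
      (A.card : ℝ) / M * Fintype.card (V → Fin M) := by
  classical
  have hM' : (0 : ℝ) < M := by exact_mod_cast hM
  have h1 : ∀ v, (((Finset.univ : Finset (V → Fin M)).filter fun ω => ω v = c).card : ℝ) =
      Fintype.card (V → Fin M) / M := by
    intro v
    have h2 := card_prescribed (ι := V) ({v} : Finset V) (fun _ => c)
    rw [Finset.card_singleton, pow_one, Fintype.card_fin] at h2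
    rw [eq_div_iff hM'.ne', ← h2]
    congr 3
    ext ω
    simp
  have h2 : ∑ ω : V → Fin M, (A.filter fun v => ω v = c).card =
      ∑ v ∈ A, ((Finset.univ : Finset (V → Fin M)).filter fun ω => ω v = c).card := by
    simp_rw [Finset.card_filter]
    rw [Finset.sum_comm]
  have h3 : ∑ ω : V → Fin M, ((A.filter fun v => ω v = c).card : ℝ) =
      ∑ v ∈ A, (((Finset.univ : Finset (V → Fin M)).filter fun ω => ω v = c).card : ℝ) := by
    exact_mod_cast h2
  rw [h3, Finset.sum_congr rfl fun v _ => h1 v, Finset.sum_const, nsmul_eq_mul]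
  ring

/-- One set and one class. -/
lemma bad_class (hM : 0 < M) (A : Finset V) (c : Fin M) (b t : ℝ) (hb : 0 < b)
    (hA : (A.card : ℝ) ≤ b) (ht : 0 ≤ t) :
    (((Finset.univ : Finset (V → Fin M)).filter fun ω =>
      t < |((A.filter fun v => ω v = c).card : ℝ) - (A.card : ℝ) / M|).card : ℝ) ≤
      Fintype.card (V → Fin M) * (2 * Real.exp (-t ^ 2 / (2 * b))) := by
  classical
  haveI : Nonempty (Fin M) := ⟨⟨0, hM⟩⟩
  set f : (V → Fin M) → ℝ := fun ω => ((A.filter fun v => ω v = c).card : ℝ) with hf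
  have hdep : ∀ ω ω' : V → Fin M, (∀ i ∈ A, ω i = ω' i) → f ω = f ω' := by
    intro ω ω' h
    have : (A.filter fun v => ω v = c) = A.filter fun v => ω' v = c := by
      apply Finset.filter_congr
      intro v hv
      rw [h v hv]
    simp only [hf, this]
  have hlip1 : ∀ i, ∀ ω ω' : V → Fin M, (∀ j, j ≠ i → ω j = ω' j) → f ω ≤ f ω' + 1 := by
    intro i ω ω' h
    have h1 : (A.filter fun v => ω v = c) ⊆ insert i (A.filter fun v => ω' v = c) := by
      intro v hv
      rw [Finset.mem_filter] at hv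
      rw [Finset.mem_insert, Finset.mem_filter]
      by_cases hvi : v = i
      · exact Or.inl hvi
      · rw [← h v hvi]
        exact Or.inr hv
    have h2 := (Finset.card_le_card h1).trans (Finset.card_insert_le _ _)
    simp only [hf]
    exact_mod_cast h2
  have hlip : ∀ i ∈ A, ∀ ω ω' : V → Fin M, (∀ j, j ≠ i → ω j = ω' j) → |f ω - f ω'| ≤ 1 := by
    intro i _ ω ω' h
    have h1 := hlip1 i ω ω' h
    have h2 := hlip1 i ω' ω fun j hj => (h j hj).symm
    rw [abs_le]
    constructor <;> linarith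
  have hV : ∑ i ∈ A, (1 : ℝ) ^ 2 ≤ b := by simpa using hA
  have hmean := sum_class (V := V) hM A c
  have h1 := wmcd_upper A f (fun _ => 1) hdep hlip b hb hV ((A.card : ℝ) / M) t ht hmean.le
    (Finset.univ.filter fun ω => (A.card : ℝ) / M + t ≤ f ω)
    (fun ω hω => (Finset.mem_filter.1 hω).2)
  have h2 := wmcd_lower A f (fun _ => 1) hdep hlip b hb hV ((A.card : ℝ) / M) t ht hmean.ge
    (Finset.univ.filter fun ω => f ω ≤ (A.card : ℝ) / M - t)
    (fun ω hω => (Finset.mem_filter.1 hω).2)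
  have h3 : ((Finset.univ : Finset (V → Fin M)).filter fun ω =>
      t < |((A.filter fun v => ω v = c).card : ℝ) - (A.card : ℝ) / M|) ⊆
      (Finset.univ.filter fun ω => (A.card : ℝ) / M + t ≤ f ω) ∪
      (Finset.univ.filter fun ω => f ω ≤ (A.card : ℝ) / M - t) := by
    intro ω hω
    rw [Finset.mem_filter, lt_abs] at hω
    rw [Finset.mem_union, Finset.mem_filter, Finset.mem_filter]
    rcases hω.2 with h | h
    · left
      refine ⟨Finset.mem_univ _, ?_⟩
      simp only [hf]
      linarith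
    · right
      refine ⟨Finset.mem_univ _, ?_⟩
      simp only [hf]
      linarith
  have h4 : (((Finset.univ : Finset (V → Fin M)).filter fun ω =>
      t < |((A.filter fun v => ω v = c).card : ℝ) - (A.card : ℝ) / M|).card : ℝ) ≤
      ((Finset.univ.filter fun ω => (A.card : ℝ) / M + t ≤ f ω).card : ℝ) +
      ((Finset.univ.filter fun ω => f ω ≤ (A.card : ℝ) / M - t).card : ℝ) := by
    exact_mod_cast (Finset.card_le_card h3).trans (Finset.card_union_le _ _)
  linarith

end

open Filter in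
/-- General random sampling: a partition into `M` classes which splits all given sets evenly. -/
theorem sampling (M : ℕ) (K δ : ℝ) (hM : 0 < M) (hK : 0 < K) (hδ : 0 < δ) :
    ∃ D0 : ℕ, ∀ D : ℕ, D0 ≤ D → ∀ (V : Type) [Fintype V] [DecidableEq V]
      (J : Type) [Fintype J] [DecidableEq J] (A : J → Finset V),
      (∀ j, ((A j).card : ℝ) ≤ K * D) →
      (∀ j, (((Finset.univ : Finset J).filter fun j' => ¬ Disjoint (A j) (A j')).card : ℝ) ≤
        K * D ^ 3) →
      ∃ β : V → Fin M, ∀ j c, |(((A j).filter fun v => β v = c).card : ℝ) - (A j).card / M| ≤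
        δ * D := by
  classical
  have hM' : (0 : ℝ) < M := by exact_mod_cast hM
  set C : ℝ := 1 / (8 * M * (K + 1)) with hC
  have hC0 : 0 < C := by positivity
  have hev : ∀ᶠ D : ℕ in atTop, 0 < D ∧ (D : ℝ) ^ 3 * Real.exp (-((δ ^ 2 / (2 * K)) * D)) < C := by
    filter_upwards [eventually_gt_atTop 0, evt_exp3 (δ ^ 2 / (2 * K)) C (by positivity) hC0]
      with D h1 h2
    exact ⟨h1, h2⟩
  obtain ⟨D0, hD0⟩ := eventually_atTop.1 hev
  refine ⟨D0, fun D hD V _ _ J _ _ A hA hdis => ?_⟩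
  obtain ⟨hDpos, e1⟩ := hD0 D hD
  have hD' : (0 : ℝ) < D := by exact_mod_cast hDpos
  have hD1 : (1 : ℝ) ≤ D := by exact_mod_cast hDpos
  haveI : Nonempty (Fin M) := ⟨⟨0, hM⟩⟩
  set Bad : J → Finset (V → Fin M) := fun j => Finset.univ.filter fun ω =>
    ∃ c : Fin M, δ * D < |(((A j).filter fun v => ω v = c).card : ℝ) - ((A j).card : ℝ) / M|
    with hBad
  set q : ℝ := M * (2 * Real.exp (-(δ * D) ^ 2 / (2 * (K * D)))) with hq
  have hP : ∀ j, ((Bad j).card : ℝ) ≤ q * Fintype.card (V → Fin M) := by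
    intro j
    have h1 : Bad j ⊆ (Finset.univ : Finset (Fin M)).biUnion fun c => Finset.univ.filter fun ω =>
        δ * D < |(((A j).filter fun v => ω v = c).card : ℝ) - ((A j).card : ℝ) / M| := by
      intro ω hω
      rw [hBad, Finset.mem_filter] at hω
      obtain ⟨-, c, hc⟩ := hω
      rw [Finset.mem_biUnion]
      exact ⟨c, Finset.mem_univ _, Finset.mem_filter.2 ⟨Finset.mem_univ _, hc⟩⟩
    calc ((Bad j).card : ℝ) ≤ ∑ c : Fin M, (((Finset.univ : Finset (V → Fin M)).filter fun ω =>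
          δ * D < |(((A j).filter fun v => ω v = c).card : ℝ) -
            ((A j).card : ℝ) / M|).card : ℝ) := by
          exact_mod_cast (Finset.card_le_card h1).trans Finset.card_biUnion_le
      _ ≤ ∑ _c : Fin M, (Fintype.card (V → Fin M) : ℝ) *
          (2 * Real.exp (-(δ * D) ^ 2 / (2 * (K * D)))) :=
          Finset.sum_le_sum fun c _ => bad_class hM (A j) c (K * D) (δ * D) (by positivity)
            (hA j) (by positivity)
      _ = q * Fintype.card (V → Fin M) := by
          rw [Finset.sum_const, Finset.card_univ, Fintype.card_fin, nsmul_eq_mul, hq]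
          ring
  have hDep : ∀ j, DepOn (A j) (Bad j) := by
    intro j ω ω' h hω
    rw [hBad, Finset.mem_filter] at hω ⊢
    obtain ⟨-, c, hc⟩ := hω
    refine ⟨Finset.mem_univ _, c, ?_⟩
    have h1 : ((A j).filter fun v => ω' v = c) = (A j).filter fun v => ω v = c := by
      apply Finset.filter_congr
      intro v hv
      rw [h v hv]
    rw [h1]
    exact hc
  have hd : ∀ j, ((Finset.univ : Finset J).filter fun j' => ¬ Disjoint (A j) (A j')).card ≤
      ⌊K * (D : ℝ) ^ 3⌋₊ := fun j => Nat.le_floor (hdis j)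
  have hq0 : 0 ≤ q := by positivity
  have hqd : 4 * q * ((⌊K * (D : ℝ) ^ 3⌋₊ : ℝ) + 1) ≤ 1 := by
    have h1 : (⌊K * (D : ℝ) ^ 3⌋₊ : ℝ) ≤ K * (D : ℝ) ^ 3 := Nat.floor_le (by positivity)
    have h2 : (1 : ℝ) ≤ (D : ℝ) ^ 3 := one_le_pow₀ hD1
    have h3 : (⌊K * (D : ℝ) ^ 3⌋₊ : ℝ) + 1 ≤ (K + 1) * (D : ℝ) ^ 3 := by linarith
    have h4 : Real.exp (-(δ * D) ^ 2 / (2 * (K * D))) = Real.exp (-((δ ^ 2 / (2 * K)) * D)) := by
      congr 1
      field_simp
    calc 4 * q * ((⌊K * (D : ℝ) ^ 3⌋₊ : ℝ) + 1) ≤ 4 * q * ((K + 1) * (D : ℝ) ^ 3) :=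
          mul_le_mul_of_nonneg_left h3 (by positivity)
      _ = 8 * M * (K + 1) * ((D : ℝ) ^ 3 * Real.exp (-((δ ^ 2 / (2 * K)) * D))) := by
          rw [hq, h4]
          ring
      _ ≤ 8 * M * (K + 1) * C := mul_le_mul_of_nonneg_left e1.le (by positivity)
      _ = 1 := by rw [hC]; field_simp
  obtain ⟨β, hβ⟩ := lll (ι := V) (α := Fin M) Bad A hDep q ⌊K * (D : ℝ) ^ 3⌋₊ hq0 hP hd hqd
  refine ⟨β, fun j c => ?_⟩
  by_contra hcon
  rw [not_le] at hcon
  apply hβ j
  rw [hBad, Finset.mem_filter]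
  exact ⟨Finset.mem_univ _, c, hcon⟩

end Pool.Agent.Helper32.LK
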