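import Pool.Agent.Helper32.Sq.Prob

set_option autoImplicit false

/-! # Bounded differences inequality with weights on a uniform product space -/

namespace Pool.Agent.Helper32.LK

open Pool.Agent.Helper39.LCP (one_dim sum_fin_succ)

theorem one_dim_w {α : Type*} [Fintype α] [Nonempty α] (g : α → ℝ) (w : ℝ)
    (hg : ∀ a b, |g a - g b| ≤ w) (l : ℝ) :
    ∑ a, Real.exp (l * (g a - (∑ b, g b) / (Fintype.card α : ℝ)))
      ≤ (Fintype.card α : ℝ) * Real.exp (l ^ 2 * w ^ 2 / 2) := by
  have hc0 : (0 : ℝ) < Fintype.card α := by exact_mod_cast Fintype.card_pos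
  have hw0 : 0 ≤ w := (abs_nonneg _).trans (hg (Classical.arbitrary α) (Classical.arbitrary α))
  rcases hw0.eq_or_lt with h | h
  · have h1 : ∀ a b, g a = g b := by
      intro a b
      have := hg a b
      rw [← h] at this
      exact sub_eq_zero.1 (abs_nonpos_iff.1 this)
    have h2 : ∀ a, g a - (∑ b, g b) / (Fintype.card α : ℝ) = 0 := by
      intro a
      rw [Finset.sum_congr rfl fun b _ => h1 b a, Finset.sum_const, Finset.card_univ, nsmul_eq_mul,
        mul_div_cancel_left₀ _ hc0.ne', sub_self]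
    simp only [h2, mul_zero, Real.exp_zero, Finset.sum_const, Finset.card_univ, nsmul_eq_mul,
      mul_one]
    rw [← h]
    simp
  · have h1 := one_dim (fun a => g a / w) (fun a b => by
      rw [← sub_div, abs_div, abs_of_pos h, div_le_one h]
      exact hg a b) (l * w)
    have h2 : ∀ a, l * w * (g a / w - (∑ b, g b / w) / (Fintype.card α : ℝ)) =
        l * (g a - (∑ b, g b) / (Fintype.card α : ℝ)) := by
      intro a
      rw [← Finset.sum_div]
      field_simp
    simp only [h2] at h1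
    rwa [mul_pow] at h1

theorem mgf_w {α : Type*} [Fintype α] [Nonempty α] : ∀ (N : ℕ) (f : (Fin N → α) → ℝ)
    (w : Fin N → ℝ),
    (∀ i x x', (∀ j, j ≠ i → x j = x' j) → |f x - f x'| ≤ w i) → ∀ l : ℝ,
    ∑ x, Real.exp (l * (f x - (∑ y, f y) / (Fintype.card α : ℝ) ^ N))
      ≤ (Fintype.card α : ℝ) ^ N * Real.exp (l ^ 2 * (∑ i, w i ^ 2) / 2) := by
  intro N
  induction N with
  | zero =>
    intro f w _ l
    simp
  | succ N ih =>
    intro f w hf l
    set c : ℝ := (Fintype.card α : ℝ) with hc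
    have hc0 : 0 < c := by rw [hc]; exact_mod_cast Fintype.card_pos
    set g : α → ℝ := fun a => (∑ x : Fin N → α, f (Fin.cons a x : Fin (N + 1) → α)) / c ^ N with hg
    have hmean : (∑ y, f y) / c ^ (N + 1) = (∑ a, g a) / c := by
      rw [sum_fin_succ, hg, ← Finset.sum_div, pow_succ, div_div]
    rw [hmean, sum_fin_succ]
    have hgd : ∀ a b, |g a - g b| ≤ w 0 := by
      intro a b
      have : g a - g b = (∑ x : Fin N → α, (f (Fin.cons a x : Fin (N + 1) → α)
          - f (Fin.cons b x : Fin (N + 1) → α))) / c ^ N := by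
        simp only [hg]
        rw [Finset.sum_sub_distrib, sub_div]
      rw [this, abs_div, abs_of_pos (pow_pos hc0 N), div_le_iff₀ (pow_pos hc0 N)]
      calc _ ≤ ∑ x : Fin N → α, |f (Fin.cons a x : Fin (N + 1) → α)
          - f (Fin.cons b x : Fin (N + 1) → α)| := Finset.abs_sum_le_sum_abs _ _
        _ ≤ ∑ _x : Fin N → α, w 0 := by
          apply Finset.sum_le_sum
          intro x _
          apply hf 0
          intro j hj
          obtain ⟨j', rfl⟩ := Fin.exists_succ_eq.mpr hj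
          simp
        _ = w 0 * c ^ N := by
          simp [Finset.card_univ, hc]
          ring
    calc ∑ a, ∑ x : Fin N → α, Real.exp (l * (f (Fin.cons a x : Fin (N + 1) → α) - (∑ a, g a) / c))
        = ∑ a, Real.exp (l * (g a - (∑ a, g a) / c)) *
            ∑ x : Fin N → α, Real.exp (l * (f (Fin.cons a x : Fin (N + 1) → α) - g a)) := by
          apply Finset.sum_congr rfl; intro a _
          rw [Finset.mul_sum]
          apply Finset.sum_congr rfl; intro x _
          rw [← Real.exp_add]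
          congr 1; ring
      _ ≤ ∑ a, Real.exp (l * (g a - (∑ a, g a) / c)) *
            (c ^ N * Real.exp (l ^ 2 * (∑ i : Fin N, w i.succ ^ 2) / 2)) := by
          apply Finset.sum_le_sum; intro a _
          gcongr
          apply ih (fun x => f (Fin.cons a x : Fin (N + 1) → α)) (fun i => w i.succ)
          intro i x x' hxx
          apply hf i.succ
          intro j hj
          refine Fin.cases ?_ (fun j' => ?_) j hj
          · intro _; simp
          · intro hj'
            simp only [Fin.cons_succ]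
            exact hxx j' (fun h => hj' (by rw [h]))
      _ = (∑ a, Real.exp (l * (g a - (∑ a, g a) / c))) *
            (c ^ N * Real.exp (l ^ 2 * (∑ i : Fin N, w i.succ ^ 2) / 2)) := by
          rw [Finset.sum_mul]
      _ ≤ (c * Real.exp (l ^ 2 * w 0 ^ 2 / 2)) *
            (c ^ N * Real.exp (l ^ 2 * (∑ i : Fin N, w i.succ ^ 2) / 2)) := by
          gcongr
          exact one_dim_w g (w 0) hgd l
      _ = c ^ (N + 1) * Real.exp (l ^ 2 * (∑ i, w i ^ 2) / 2) := by
          have : l ^ 2 * (∑ i, w i ^ 2) / 2 =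
              l ^ 2 * w 0 ^ 2 / 2 + l ^ 2 * (∑ i : Fin N, w i.succ ^ 2) / 2 := by
            rw [Fin.sum_univ_succ]; ring
          rw [this, Real.exp_add, pow_succ]; ring

variable {ι α : Type*} [Fintype ι] [DecidableEq ι] [Fintype α] [Nonempty α]

theorem mgf_w' (f : (ι → α) → ℝ) (w : ι → ℝ)
    (hf : ∀ i x x', (∀ j, j ≠ i → x j = x' j) → |f x - f x'| ≤ w i) (l : ℝ) :
    ∑ x, Real.exp (l * (f x - (∑ y, f y) / (Fintype.card (ι → α) : ℝ)))
      ≤ (Fintype.card (ι → α) : ℝ) * Real.exp (l ^ 2 * (∑ i, w i ^ 2) / 2) := by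
  classical
  set N := Fintype.card ι with hNdef
  let e : ι ≃ Fin N := Fintype.equivFin ι
  let E : (Fin N → α) ≃ (ι → α) := (Equiv.arrowCongr e (Equiv.refl α)).symm
  have hE : ∀ x : Fin N → α, ∀ i, E x i = x (e i) := fun x i => rfl
  have h := mgf_w N (fun x => f (E x)) (fun i => w (e.symm i)) (by
    intro i x x' hxx
    apply hf (e.symm i)
    intro j hj
    rw [hE, hE]
    apply hxx
    intro h
    apply hj
    rw [← h]; simp) l
  have h1 : (Fintype.card (ι → α) : ℝ) = (Fintype.card α : ℝ) ^ N := by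
    rw [Fintype.card_fun]; push_cast; rfl
  rw [h1]
  have h2 : ∑ y, f (E y) = ∑ y, f y := E.sum_comp f
  have h3 : ∑ i, w (e.symm i) ^ 2 = ∑ i, w i ^ 2 := e.symm.sum_comp fun i => w i ^ 2
  rw [h2, h3] at h
  rw [← E.sum_comp fun x => Real.exp (l * (f x - (∑ y, f y) / (Fintype.card α : ℝ) ^ N))]
  exact h

/-- upper tail: if the mean is at most `m`, then `f ≥ m + t` is rare -/
theorem wmcd_upper (T : Finset ι) (f : (ι → α) → ℝ) (w : ι → ℝ)
    (hf : ∀ ω ω' : ι → α, (∀ i ∈ T, ω i = ω' i) → f ω = f ω')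
    (hL : ∀ i ∈ T, ∀ ω ω' : ι → α, (∀ j, j ≠ i → ω j = ω' j) → |f ω - f ω'| ≤ w i)
    (V : ℝ) (hV0 : 0 < V) (hV : ∑ i ∈ T, w i ^ 2 ≤ V) (m t : ℝ) (ht : 0 ≤ t)
    (hm : ∑ ω, f ω ≤ m * Fintype.card (ι → α)) (B : Finset (ι → α))
    (hB : ∀ ω ∈ B, m + t ≤ f ω) :
    (B.card : ℝ) ≤ Fintype.card (ι → α) * Real.exp (-t ^ 2 / (2 * V)) := by
  have hc : (0 : ℝ) < Fintype.card (ι → α) := by exact_mod_cast Fintype.card_pos
  have h1 := mgf_w' f (fun i => if i ∈ T then w i else 0) (by
    intro i x x' hxx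
    by_cases hi : i ∈ T
    · simp only [hi, if_true]
      exact hL i hi x x' hxx
    · simp only [hi, if_false]
      rw [hf x x' fun j hj => hxx j (fun h => hi (h ▸ hj)), sub_self, abs_zero]) (t / V)
  have h2 : ∑ i, (if i ∈ T then w i else 0) ^ 2 = ∑ i ∈ T, w i ^ 2 := by
    simp only [ite_pow, ne_eq, OfNat.ofNat_ne_zero, not_false_eq_true, zero_pow]
    rw [← Finset.sum_filter, Finset.filter_mem_eq_inter, Finset.univ_inter]
  rw [h2] at h1
  set M : ℝ := (∑ y, f y) / (Fintype.card (ι → α) : ℝ) with hM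
  have hMm : M ≤ m := by rw [hM, div_le_iff₀ hc]; exact hm
  have h3 : (B.card : ℝ) * Real.exp (t / V * t) ≤ ∑ x, Real.exp (t / V * (f x - M)) := by
    calc (B.card : ℝ) * Real.exp (t / V * t) = ∑ x ∈ B, Real.exp (t / V * t) := by
          rw [Finset.sum_const, nsmul_eq_mul]
      _ ≤ ∑ x ∈ B, Real.exp (t / V * (f x - M)) := by
          apply Finset.sum_le_sum
          intro x hx
          apply Real.exp_le_exp.2
          apply mul_le_mul_of_nonneg_left _ (by positivity)
          have := hB x hx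
          linarith
      _ ≤ _ := Finset.sum_le_sum_of_subset_of_nonneg (Finset.subset_univ _)
          fun x _ _ => (Real.exp_pos _).le
  have h4 := h3.trans h1
  have h5 : (t / V) ^ 2 * (∑ i ∈ T, w i ^ 2) / 2 ≤ t ^ 2 / (2 * V) := by
    have h6 : (t / V) ^ 2 * (∑ i ∈ T, w i ^ 2) ≤ (t / V) ^ 2 * V :=
      mul_le_mul_of_nonneg_left hV (sq_nonneg _)
    have h7 : (t / V) ^ 2 * V = 2 * (t ^ 2 / (2 * V)) := by field_simp
    linarith
  have h6 : (B.card : ℝ) * Real.exp (t / V * t) ≤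
      Fintype.card (ι → α) * Real.exp (t ^ 2 / (2 * V)) :=
    h4.trans (mul_le_mul_of_nonneg_left (Real.exp_le_exp.2 h5) hc.le)
  have h7 : (B.card : ℝ) = (B.card : ℝ) * Real.exp (t / V * t) * Real.exp (-(t / V * t)) := by
    rw [mul_assoc, ← Real.exp_add, add_neg_cancel, Real.exp_zero, mul_one]
  rw [h7]
  refine (mul_le_mul_of_nonneg_right h6 (Real.exp_pos _).le).trans (le_of_eq ?_)
  rw [mul_assoc, ← Real.exp_add]
  congr 2
  field_simp
  ring

/-- lower tail: if the mean is at least `m`, then `f ≤ m - t` is rare -/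
theorem wmcd_lower (T : Finset ι) (f : (ι → α) → ℝ) (w : ι → ℝ)
    (hf : ∀ ω ω' : ι → α, (∀ i ∈ T, ω i = ω' i) → f ω = f ω')
    (hL : ∀ i ∈ T, ∀ ω ω' : ι → α, (∀ j, j ≠ i → ω j = ω' j) → |f ω - f ω'| ≤ w i)
    (V : ℝ) (hV0 : 0 < V) (hV : ∑ i ∈ T, w i ^ 2 ≤ V) (m t : ℝ) (ht : 0 ≤ t)
    (hm : m * Fintype.card (ι → α) ≤ ∑ ω, f ω) (B : Finset (ι → α))
    (hB : ∀ ω ∈ B, f ω ≤ m - t) :
    (B.card : ℝ) ≤ Fintype.card (ι → α) * Real.exp (-t ^ 2 / (2 * V)) := by
  refine wmcd_upper T (fun ω => -f ω) w (fun ω ω' h => by rw [hf ω ω' h])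
    (fun i hi ω ω' h => ?_) V hV0 hV (-m) t ht ?_ B (fun ω hω => ?_)
  · rw [neg_sub_neg, abs_sub_comm]
    exact hL i hi ω ω' h
  · rw [Finset.sum_neg_distrib]
    linarith
  · have := hB ω hω
    linarith

end Pool.Agent.Helper32.LK
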